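import Pool.Agent.SemiTrans.Local

/-!
A finite chordal graph is semi-transitive iff no ordered triangle `(a, b, c)` is forced to agree
with `(b, a, c)`.
-/

namespace Pool.Agent.SemiTrans

variable {V : Type*} {G : SimpleGraph V}

open SimpleGraph

/-- The three vertices are pairwise adjacent. -/
def Tri (G : SimpleGraph V) (a b c : V) : Prop := G.Adj a b ∧ G.Adj a c ∧ G.Adj b c

/-- The elementary forcing steps between ordered triangles. -/
inductive Force (G : SimpleGraph V) : V × V × V → V × V × V → Prop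
  | rot {a b c : V} : Tri G a b c → Force G (a, b, c) (b, c, a)
  | flip {a b c d : V} : Tri G a b c → Tri G a b d → c ≠ d → ¬ G.Adj c d →
      Force G (a, b, c) (a, b, d)
  | side {a b c d w : V} : Tri G a b c → Tri G a b d → G.Adj c d → G.Adj w c → G.Adj w d →
      ¬ G.Adj w a → ¬ G.Adj w b → w ≠ a → w ≠ b → Force G (a, b, c) (a, b, d)

/-- The ordered triangle is cyclically positive for the orientation `D`. -/
def Pos (D : V → V → Prop) (t : V × V × V) : Prop :=
  (D t.1 t.2.1 ∧ D t.2.1 t.2.2) ∨ (D t.2.1 t.2.2 ∧ D t.2.2 t.1) ∨ (D t.2.2 t.1 ∧ D t.1 t.2.1)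

theorem LocalGood.adj {D : V → V → Prop} (h : LocalGood G D) {a b : V} (hab : D a b) :
    G.Adj a b := (h.ori.adj_iff a b).2 (Or.inl hab)

theorem LocalGood.not_iff {D : V → V → Prop} (h : LocalGood G D) {a b : V} (hab : G.Adj a b) :
    ¬ D a b ↔ D b a := by
  constructor
  · intro h1
    rcases (h.ori.adj_iff _ _).1 hab with h2 | h2
    · exact absurd h2 h1
    · exact h2
  · intro h1 h2
    exact h.ori.asymm _ _ h1 h2

theorem LocalGood.pos_swap {D : V → V → Prop} (h : LocalGood G D) {a b c : V} (ht : Tri G a b c) :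
    Pos D (a, b, c) ↔ ¬ Pos D (b, a, c) := by
  obtain ⟨hab, hac, hbc⟩ := ht
  have e1 := h.not_iff hab
  have e2 := h.not_iff hac
  have e3 := h.not_iff hbc
  have t1 := h.tri a b c
  have t2 := h.tri b a c
  have t3 := h.tri b c a
  clear h hab hac hbc
  simp only [Pos]
  simp only [← e1, ← e2, ← e3] at *
  clear e1 e2 e3
  by_cases x1 : D a b <;> by_cases x2 : D a c <;> by_cases x3 : D b c <;> simp_all

theorem LocalGood.pos_dia {D : V → V → Prop} (h : LocalGood G D) {a b c d : V}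
    (ht : Tri G a b c) (ht' : Tri G a b d) (hcd : c ≠ d) (hn : ¬ G.Adj c d) :
    Pos D (a, b, c) ↔ Pos D (a, b, d) := by
  obtain ⟨hab, hac, hbc⟩ := ht
  obtain ⟨_, had, hbd⟩ := ht'
  have e1 := h.not_iff hab
  have e2 := h.not_iff hac
  have e3 := h.not_iff hbc
  have e4 := h.not_iff had
  have e5 := h.not_iff hbd
  have d1 := fun x y => h.dia a b c d x y hab had hbd hcd hn
  have d2 := fun x y => h.dia b a c d x y hab.symm hbd had hcd hn
  have d3 := fun x y => h.dia a b d c x y hab hac hbc hcd.symm (fun e => hn e.symm)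
  have d4 := fun x y => h.dia b a d c x y hab.symm hbc hac hcd.symm (fun e => hn e.symm)
  have t1 := h.tri a b c
  have t2 := h.tri b a c
  have t3 := h.tri a b d
  have t4 := h.tri b a d
  clear h hcd hn hab hac hbc had hbd
  simp only [Pos]
  simp only [← e1, ← e2, ← e3, ← e4, ← e5] at *
  clear e1 e2 e3 e4 e5
  by_cases x1 : D a b <;> by_cases x2 : D a c <;> by_cases x3 : D b c <;>
    by_cases x4 : D a d <;> by_cases x5 : D b d <;> simp_all

theorem LocalGood.pos_side {D : V → V → Prop} (h : LocalGood G D) {a b c d w : V}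
    (ht : Tri G a b c) (ht' : Tri G a b d) (hcd : G.Adj c d) (hwc : G.Adj w c) (hwd : G.Adj w d)
    (hwa : ¬ G.Adj w a) (hwb : ¬ G.Adj w b) (hwa' : w ≠ a) (hwb' : w ≠ b) :
    Pos D (a, b, c) ↔ Pos D (a, b, d) := by
  obtain ⟨hab, hac, hbc⟩ := ht
  obtain ⟨_, had, hbd⟩ := ht'
  have p1 : Pos D (c, d, w) ↔ Pos D (c, d, a) :=
    h.pos_dia ⟨hcd, hwc.symm, hwd.symm⟩ ⟨hcd, hac.symm, had.symm⟩ hwa' hwa
  have p2 : Pos D (c, d, w) ↔ Pos D (c, d, b) :=
    h.pos_dia ⟨hcd, hwc.symm, hwd.symm⟩ ⟨hcd, hbc.symm, hbd.symm⟩ hwb' hwb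
  have p3 : Pos D (c, d, a) ↔ Pos D (c, d, b) := p1.symm.trans p2
  clear p1 p2
  have e1 := h.not_iff hab
  have e2 := h.not_iff hac
  have e3 := h.not_iff hbc
  have e4 := h.not_iff had
  have e5 := h.not_iff hbd
  have e6 := h.not_iff hcd
  have t1 := h.tri a b c
  have t2 := h.tri b a c
  have t3 := h.tri a b d
  have t4 := h.tri b a d
  have t5 := h.tri a c d
  have t6 := h.tri c a d
  have t7 := h.tri b c d
  have t8 := h.tri c b d
  clear h hcd hab hac hbc had hbd hwc hwd hwa hwb hwa' hwb'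
  simp only [Pos] at p3 ⊢
  simp only [← e1, ← e2, ← e3, ← e4, ← e5, ← e6] at *
  clear e1 e2 e3 e4 e5 e6
  by_cases x1 : D a b <;> by_cases x2 : D a c <;> by_cases x3 : D b c <;>
    by_cases x4 : D a d <;> by_cases x5 : D b d <;> by_cases x6 : D c d <;> simp_all

theorem LocalGood.pos_force {D : V → V → Prop} (h : LocalGood G D) {x y : V × V × V}
    (hxy : Force G x y) : Pos D x ↔ Pos D y := by
  cases hxy with
  | rot ht => simp only [Pos]; tauto
  | flip h1 h2 h3 h4 => exact h.pos_dia h1 h2 h3 h4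
  | side h1 h2 h3 h4 h5 h6 h7 h8 h9 => exact h.pos_side h1 h2 h3 h4 h5 h6 h7 h8 h9

theorem LocalGood.pos_eqvGen {D : V → V → Prop} (h : LocalGood G D) {x y : V × V × V}
    (hxy : Relation.EqvGen (Force G) x y) : Pos D x ↔ Pos D y := by
  induction hxy with
  | rel _ _ h' => exact h.pos_force h'
  | refl _ => exact Iff.rfl
  | symm _ _ _ ih => exact ih.symm
  | trans _ _ _ _ _ ih1 ih2 => exact ih1.trans ih2

theorem SemiTransitive.consistent (h : SemiTransitive G) {a b c : V} (ht : Tri G a b c) :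
    ¬ Relation.EqvGen (Force G) (a, b, c) (b, a, c) := by
  obtain ⟨D, hD⟩ := h
  intro hcon
  have h1 := hD.localGood.pos_eqvGen hcon
  have h2 := hD.localGood.pos_swap ht
  tauto

section

open Relation

theorem eqv_rot {a b c : V} (ht : Tri G a b c) : EqvGen (Force G) (a, b, c) (b, c, a) :=
  EqvGen.rel _ _ (Force.rot ht)

theorem eqv_rot' {a b c : V} (ht : Tri G a b c) : EqvGen (Force G) (a, b, c) (c, a, b) :=
  EqvGen.symm _ _ (EqvGen.rel _ _ (Force.rot ⟨ht.2.1.symm, ht.2.2.symm, ht.1⟩))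

theorem eqv_flip₁ {a b c d : V} (h1 : Tri G a b c) (h2 : Tri G a b d) (h3 : c ≠ d)
    (h4 : ¬ G.Adj c d) : EqvGen (Force G) (c, a, b) (d, a, b) :=
  ((eqv_rot ⟨h1.2.1.symm, h1.2.2.symm, h1.1⟩).trans _ _ _
    (EqvGen.rel _ _ (Force.flip h1 h2 h3 h4))).trans _ _ _ (eqv_rot' h2)

theorem Strong.eqv_base {I : V → Prop} (hI : Strong G I) {v v' p q : V} (hv : I v) (hv' : I v')
    (hpq : G.Adj p q) (h1 : G.Adj v p) (h2 : G.Adj v q) (h3 : G.Adj v' p) (h4 : G.Adj v' q) :
    EqvGen (Force G) (v, p, q) (v', p, q) := by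
  by_cases h : v = v'
  · subst h; exact EqvGen.refl _
  · exact eqv_flip₁ ⟨hpq, h1.symm, h2.symm⟩ ⟨hpq, h3.symm, h4.symm⟩ h (hI.indep _ _ hv hv')

theorem Strong.eqv_step {I : V → Prop} (hI : Strong G I) {x y : V × V} (h : Step G I x y)
    {v v' : V} (hv : I v) (hv' : I v') (h1 : G.Adj v x.1) (h2 : G.Adj v x.2)
    (h3 : G.Adj v' y.1) (h4 : G.Adj v' y.2) :
    EqvGen (Force G) (v, x) (v', y) := by
  have hx := h.act hI
  have hy := h.symm.act hI
  -- it suffices to find one good pair of base vertices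
  have key : ∀ u, I u → G.Adj u x.1 → G.Adj u x.2 → G.Adj u y.1 → G.Adj u y.2 →
      EqvGen (Force G) (u, x) (u, y) → EqvGen (Force G) (v, x) (v', y) := by
    intro u hu u1 u2 u3 u4 hh
    exact ((hI.eqv_base hv hu hx.1 h1 h2 u1 u2).trans _ _ _ hh).trans _ _ _
      (hI.eqv_base hu hv' hy.1 u3 u4 h3 h4)
  cases h with
  | @gammaOut w q r s g1 g2 g3 g4 g5 g6 g7 g8 =>
    exact key w g1 g2 g3 g2 g4 (EqvGen.rel _ _ (Force.flip ⟨g2, g3, g5⟩ ⟨g2, g4, g6⟩ g7 g8))
  | @gammaIn w q r s g1 g2 g3 g4 g5 g6 g7 g8 =>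
    refine key w g1 g3 g2 g4 g2 ?_
    -- (w, r, q) → (q, w, r) → (q, w, s) → (w, s, q)
    have e1 : EqvGen (Force G) (w, r, q) (q, w, r) := eqv_rot' ⟨g3, g2, g5.symm⟩
    have e2 : EqvGen (Force G) (q, w, r) (q, w, s) :=
      EqvGen.rel _ _ (Force.flip ⟨g2.symm, g5, g3⟩ ⟨g2.symm, g6, g4⟩ g7 g8)
    have e3 : EqvGen (Force G) (q, w, s) (w, s, q) := eqv_rot ⟨g2.symm, g6, g4⟩
    exact (e1.trans _ _ _ e2).trans _ _ _ e3
  | @deltaOut w p q s g1 g2 g3 g4 g5 g6 g7 g8 =>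
    have hp : ¬ I p := fun h => hI.indep _ _ g1 h g2
    have hq : ¬ I q := fun h => hI.indep _ _ g1 h g3
    obtain ⟨u, hu, hup, huq, hus⟩ := hI.tri p q s g6 g7 g8 hp hq g5
    refine key u hu hus hup hus huq ?_
    refine EqvGen.rel _ _ (Force.side (w := w) ⟨hus, hup, g7.symm⟩ ⟨hus, huq, g8.symm⟩ g6 g2 g3
      (hI.indep _ _ g1 hu) g4 ?_ ?_)
    · rintro rfl; exact g4 hus
    · rintro rfl; exact g5 g1
  | @deltaIn w p q s g1 g2 g3 g4 g5 g6 g7 g8 =>
    have hp : ¬ I p := fun h => hI.indep _ _ g1 h g2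
    have hq : ¬ I q := fun h => hI.indep _ _ g1 h g3
    obtain ⟨u, hu, hup, huq, hus⟩ := hI.tri p q s g6 g7 g8 hp hq g5
    refine key u hu hup hus huq hus ?_
    -- (u, p, s) → (s, u, p) → (s, u, q) → (u, q, s)
    have e1 : EqvGen (Force G) (u, p, s) (s, u, p) := eqv_rot' ⟨hup, hus, g7⟩
    have e2 : EqvGen (Force G) (s, u, p) (s, u, q) := by
      refine EqvGen.rel _ _ (Force.side (w := w) ⟨hus.symm, g7.symm, hup⟩
        ⟨hus.symm, g8.symm, huq⟩ g6 g2 g3 g4 (hI.indep _ _ g1 hu) ?_ ?_)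
      · rintro rfl; exact g5 g1
      · rintro rfl; exact g4 hus
    have e3 : EqvGen (Force G) (s, u, q) (u, q, s) := eqv_rot ⟨hus.symm, g8.symm, huq⟩
    exact (e1.trans _ _ _ e2).trans _ _ _ e3

theorem Strong.eqv_rel {I : V → Prop} (hI : Strong G I) {x y : V × V} (h : Rel G I x y)
    (hx : Act G I x) {v : V} (hv : I v) (h1 : G.Adj v x.1) (h2 : G.Adj v x.2) :
    ∀ v', I v' → G.Adj v' y.1 → G.Adj v' y.2 → EqvGen (Force G) (v, x) (v', y) := by
  induction h with
  | refl =>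
    intro v' hv' h3 h4
    exact hI.eqv_base hv hv' hx.1 h1 h2 h3 h4
  | @tail y z hxy hyz ih =>
    intro v' hv' h3 h4
    have hy : Act G I y := hyz.act hI
    obtain ⟨u, hu, hu1, hu2⟩ := hI.edge y.1 y.2 hy.1 hy.2.1 hy.2.2
    exact (ih u hu hu1 hu2).trans _ _ _ (hI.eqv_step hyz hu hv' hu1 hu2 h3 h4)

theorem Strong.consistent {I : V → Prop} (hI : Strong G I)
    (h : ∀ a b c, Tri G a b c → ¬ EqvGen (Force G) (a, b, c) (b, a, c)) :
    ∀ a b, Act G I (a, b) → ¬ Rel G I (a, b) (b, a) := by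
  intro a b hab hrel
  obtain ⟨v, hv, h1, h2⟩ := hI.edge a b hab.1 hab.2.1 hab.2.2
  have e1 := hI.eqv_rel hrel hab hv h1 h2 v hv h2 h1
  have ht : Tri G v b a := ⟨h2, h1, hab.1.symm⟩
  have e2 : EqvGen (Force G) (v, b, a) (a, v, b) := eqv_rot' ht
  exact h v a b ⟨h1, h2, hab.1⟩ (e1.trans _ _ _ e2)

end

/-- The main construction. -/
theorem semiTransitive_of_consistent (r : V → ℕ) (hinj : Function.Injective r)
    (hr : ∀ v a b, a ≠ b → r a < r v → r b < r v → G.Adj v a → G.Adj v b → G.Adj a b)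
    (h : ∀ a b c, Tri G a b c → ¬ Relation.EqvGen (Force G) (a, b, c) (b, a, c)) :
    SemiTransitive G := by
  classical
  obtain ⟨I, hI⟩ := exists_strong (G := G) r hinj hr
  obtain ⟨X, hXtot, hXanti, hXrel, hXtri⟩ := exists_orientation hI r hinj (hI.consistent h)
  let D : V → V → Prop := fun a b => G.Adj a b ∧ (I a ∨ (¬ I a ∧ ¬ I b ∧ X a b))
  refine ⟨D, LocalGood.semiTransitive r hinj hr ?_⟩
  have hXX : ∀ a b c d, Step G I (a, b) (c, d) → (X a b ↔ X c d) := by
    intro a b c d hs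
    exact ⟨fun hx => hXrel _ _ _ _ (hs.act hI) hs.rel hx,
      fun hx => hXrel _ _ _ _ (hs.symm.act hI) hs.symm.rel hx⟩
  have hDX : ∀ a b, ¬ I a → ¬ I b → (D a b ↔ G.Adj a b ∧ X a b) := by
    intro a b ha hb
    simp only [D]
    tauto
  have hnX : ∀ a b, G.Adj a b → ¬ I a → ¬ I b → (¬ X a b ↔ X b a) := by
    intro a b hab ha hb
    constructor
    · intro h1
      rcases hXtot a b ⟨hab, ha, hb⟩ with h2 | h2
      · exact absurd h2 h1
      · exact h2
    · intro h1 h2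
      exact hXanti a b ⟨hab, ha, hb⟩ h2 h1
  refine ⟨⟨?_, ?_⟩, ?_, ?_⟩
  · intro a b
    constructor
    · intro hab
      by_cases ha : I a
      · exact Or.inl ⟨hab, Or.inl ha⟩
      · by_cases hb : I b
        · exact Or.inr ⟨hab.symm, Or.inl hb⟩
        · rcases hXtot a b ⟨hab, ha, hb⟩ with h1 | h1
          · exact Or.inl ⟨hab, Or.inr ⟨ha, hb, h1⟩⟩
          · exact Or.inr ⟨hab.symm, Or.inr ⟨hb, ha, h1⟩⟩
    · rintro (h1 | h1)
      · exact h1.1
      · exact h1.1.symm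
  · rintro a b ⟨hab, h1⟩ ⟨_, h2⟩
    rcases h1 with h1 | ⟨ha, hb, h1⟩
    · rcases h2 with h2 | ⟨_, h2, _⟩
      · exact hI.indep _ _ h1 h2 hab
      · exact h2 h1
    · rcases h2 with h2 | ⟨_, _, h2⟩
      · exact hb h2
      · exact hXanti a b ⟨hab, ha, hb⟩ h1 h2
  · rintro a b c ⟨hab, h1⟩ ⟨hbc, h2⟩ ⟨hca, h3⟩
    have hIa : ¬ I a := by
      intro ha
      rcases h3 with h3 | ⟨_, h3, _⟩
      · exact hI.indep _ _ h3 ha hca
      · exact h3 ha
    have hIb : ¬ I b := by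
      intro hb
      rcases h1 with h1 | ⟨_, h1, _⟩
      · exact hI.indep _ _ h1 hb hab
      · exact h1 hb
    have hIc : ¬ I c := by
      intro hc
      rcases h2 with h2 | ⟨_, h2, _⟩
      · exact hI.indep _ _ h2 hc hbc
      · exact h2 hc
    have x1 : X a b := (h1.resolve_left hIa).2.2
    have x2 : X b c := (h2.resolve_left hIb).2.2
    have x3 : X c a := (h3.resolve_left hIc).2.2
    exact hXtri a b c hIa hIb hIc hab hbc hca.symm x1 x2 x3
  · rintro p q r s ⟨hpr, h1⟩ ⟨hrq, h2⟩ hpq hps hqs hrs hnrs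
    have hIr : ¬ I r := by
      intro hr
      rcases h1 with h1 | ⟨_, h1, _⟩
      · exact hI.indep _ _ h1 hr hpr
      · exact h1 hr
    have hIq : ¬ I q := by
      intro hq
      rcases h2 with h2 | ⟨_, h2, _⟩
      · exact hI.indep _ _ h2 hq hrq
      · exact h2 hq
    have x2 : X r q := (h2.resolve_left hIr).2.2
    by_cases hIp : I p
    · -- `p` is a source, use gamma at `p`
      have hIs : ¬ I s := fun hs => hI.indep _ _ hIp hs hps
      refine ⟨⟨hps, Or.inl hIp⟩, hqs.symm, Or.inr ⟨hIs, hIq, ?_⟩⟩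
      exact (hXX _ _ _ _ (Step.gammaIn hIp hpq hpr hps hrq.symm hqs hrs hnrs)).1 x2
    · have x1 : X p r := (h1.resolve_left hIp).2.2
      -- no vertex of `I` adjacent to `p, q` and not to `r`
      have hnor : ∀ w, I w → G.Adj w p → G.Adj w q → G.Adj w r := by
        intro w hw hwp hwq
        by_contra hwr
        have e := (hXX _ _ _ _ (Step.deltaIn hw hwp hwq hwr hIr hpq hpr hrq.symm)).1 x1
        exact hXanti r q ⟨hrq, hIr, hIq⟩ x2 e
      have hIs : ¬ I s := by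
        intro hs
        exact hnrs (hnor s hs hps.symm hqs.symm).symm
      obtain ⟨v, hv, hvp, hvq, hvs⟩ := hI.tri p q s hpq hps hqs hIp hIq hIs
      have hvr : G.Adj v r := hnor v hv hvp hvq
      have y1 : X p s := (hXX _ _ _ _ (Step.gammaOut hv hvp hvr hvs hpr hps hrs hnrs)).1 x1
      have y2 : X s q := (hXX _ _ _ _ (Step.gammaIn hv hvq hvr hvs hrq.symm hqs hrs hnrs)).1 x2
      exact ⟨⟨hps, Or.inr ⟨hIp, hIs, y1⟩⟩, hqs.symm, Or.inr ⟨hIs, hIq, y2⟩⟩

/-- **Characterisation.** A finite chordal graph is semi-transitive if and only if no ordered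
triangle `(a, b, c)` is forced to agree with its reversal `(b, a, c)`. -/
theorem semiTransitive_iff [Finite V] (hG : IsChordal G) :
    SemiTransitive G ↔
      ∀ a b c, Tri G a b c → ¬ Relation.EqvGen (Force G) (a, b, c) (b, a, c) := by
  constructor
  · intro h a b c ht
    exact h.consistent ht
  · intro h
    obtain ⟨r, hinj, hr⟩ := exists_rank hG
    exact semiTransitive_of_consistent r hinj hr h

end Pool.Agent.SemiTrans
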