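import Pool.Agent.SemiTrans.PT.Bridge
import Pool.Agent.SemiTrans.Char

/-!
The algorithm: connected components of the forcing relation, and a proof that it runs in
polynomial time.
-/

namespace Pool.Agent.SemiTrans

open Pool.Agent.SemiTrans.PT

/-! ### Ranges and triples -/

/-- The numbers below `n`, in decreasing order. -/
def rng (n : ℕ) : List ℕ := (fun l : List ℕ => l.length :: l)^[n] []

theorem rng_aux (n : ℕ) :
    ((fun l : List ℕ => l.length :: l)^[n] []) = (List.range n).reverse := by
  induction n with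
  | zero => rfl
  | succ n ih =>
    rw [Function.iterate_succ_apply', ih]
    simp [List.range_succ]

theorem mem_rng {n x : ℕ} : x ∈ rng n ↔ x < n := by
  rw [rng, rng_aux]; simp

theorem length_rng (n : ℕ) : (rng n).length = n := by
  rw [rng, rng_aux]; simp

theorem pbdd_nat : PBdd (fun n : ℕ => n) :=
  PBdd.of_le PBdd.size (fun n => by rw [sz_nat]; omega)

theorem rng_polyTime' : PolyTime rng := by
  have h1 := pbdd_nat
  refine PolyTime.iterate (f := fun l : List ℕ => l.length :: l) (n := fun n => n)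
    (g := fun _ => []) (by fun_prop) (by fun_prop) (by fun_prop)
    (s := fun n => n * (2 * n + 2) + 1)
    ((h1.mul (((PBdd.const 2).mul h1).add (PBdd.const 2))).add (PBdd.const 1)) ?_
  intro n i hi
  rw [rng_aux, sz_reverse]
  refine (sz_le_of_forall (B := 2 * n + 1) ?_).trans ?_
  · intro x hx
    rw [List.mem_range] at hx
    rw [sz_nat]; omega
  · rw [List.length_range]
    have : i * (2 * n + 1 + 1) ≤ n * (2 * n + 2) := Nat.mul_le_mul hi.le le_rfl
    omega

@[fun_prop]
theorem rng_polyTime {α : Type*} [Enc α] {n : α → ℕ} (hn : PolyTime n) :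
    PolyTime (fun x => rng (n x)) := rng_polyTime'.comp hn

/-- All ordered triples of numbers below `n`. -/
def triples (n : ℕ) : List (ℕ × ℕ × ℕ) :=
  (rng n).flatMap fun a => (rng n).flatMap fun b => (rng n).map fun c => (a, b, c)

theorem mem_triples {n : ℕ} {t : ℕ × ℕ × ℕ} :
    t ∈ triples n ↔ t.1 < n ∧ t.2.1 < n ∧ t.2.2 < n := by
  obtain ⟨a, b, c⟩ := t
  simp only [triples, List.mem_flatMap, List.mem_map, mem_rng, Prod.mk.injEq]
  constructor
  · rintro ⟨a', ha, b', hb, c', hc, rfl, rfl, rfl⟩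
    exact ⟨ha, hb, hc⟩
  · rintro ⟨ha, hb, hc⟩
    exact ⟨a, ha, b, hb, c, hc, rfl, rfl, rfl⟩

theorem length_triples (n : ℕ) : (triples n).length = n * (n * n) := by
  simp [triples, List.length_flatMap, length_rng]

@[fun_prop]
theorem triples_polyTime {α : Type*} [Enc α] {n : α → ℕ} (hn : PolyTime n) :
    PolyTime (fun x => triples (n x)) := by
  have h : PolyTime triples := by
    unfold triples
    refine PolyTime.flatMap (g := fun n a => (rng n).flatMap fun b => (rng n).map fun c =>
      (a, b, c)) (by fun_prop) ?_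
    refine PolyTime.flatMap (l := fun p : ℕ × ℕ => rng p.1)
      (g := fun p b => (rng p.1).map fun c => (p.2, b, c)) (by fun_prop) ?_
    exact PolyTime.map (l := fun p : (ℕ × ℕ) × ℕ => rng p.1.1)
      (g := fun p c => (p.1.2, p.2, c)) (by fun_prop) (by fun_prop)
  exact h.comp hn

/-! ### Adjacency and forcing -/

/-- Adjacency test in a list of edges. -/
def adjB (L : List (ℕ × ℕ)) (a b : ℕ) : Bool := L.any fun e => e == (a, b) || e == (b, a)

@[fun_prop]
theorem adjB_polyTime {α : Type*} [Enc α] {L : α → List (ℕ × ℕ)} {a b : α → ℕ}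
    (hL : PolyTime L) (ha : PolyTime a) (hb : PolyTime b) :
    PolyTime (fun x => adjB (L x) (a x) (b x)) := by
  unfold adjB
  exact PolyTime.any (g := fun x e => e == (a x, b x) || e == (b x, a x)) hL (by fun_prop)

/-- Triangle test. -/
def triB (L : List (ℕ × ℕ)) (t : ℕ × ℕ × ℕ) : Bool :=
  adjB L t.1 t.2.1 && adjB L t.1 t.2.2 && adjB L t.2.1 t.2.2

@[fun_prop]
theorem triB_polyTime {α : Type*} [Enc α] {L : α → List (ℕ × ℕ)} {t : α → ℕ × ℕ × ℕ}
    (hL : PolyTime L) (ht : PolyTime t) : PolyTime (fun x => triB (L x) (t x)) := by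
  unfold triB
  fun_prop

/-- The vertex `w` is a witness for the third kind of forcing. -/
def witB (L : List (ℕ × ℕ)) (s t : ℕ × ℕ × ℕ) (w : ℕ) : Bool :=
  adjB L w s.2.2 && adjB L w t.2.2 && !(adjB L w s.1) && !(adjB L w s.2.1) && !(w == s.1) &&
    !(w == s.2.1)

@[fun_prop]
theorem witB_polyTime {α : Type*} [Enc α] {L : α → List (ℕ × ℕ)} {s t : α → ℕ × ℕ × ℕ}
    {w : α → ℕ} (hL : PolyTime L) (hs : PolyTime s) (ht : PolyTime t) (hw : PolyTime w) :
    PolyTime (fun x => witB (L x) (s x) (t x) (w x)) := by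
  unfold witB
  fun_prop

/-- Test for the forcing relation between triples. -/
def forceB (n : ℕ) (L : List (ℕ × ℕ)) (s t : ℕ × ℕ × ℕ) : Bool :=
  triB L s && ((t == (s.2.1, s.2.2, s.1)) ||
    (triB L t && (s.1 == t.1) && (s.2.1 == t.2.1) && !(s.2.2 == t.2.2) &&
      (!(adjB L s.2.2 t.2.2) || (rng n).any (witB L s t))))

@[fun_prop]
theorem forceB_polyTime {α : Type*} [Enc α] {n : α → ℕ} {L : α → List (ℕ × ℕ)}
    {s t : α → ℕ × ℕ × ℕ} (hn : PolyTime n) (hL : PolyTime L) (hs : PolyTime s)
    (ht : PolyTime t) : PolyTime (fun x => forceB (n x) (L x) (s x) (t x)) := by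
  unfold forceB
  have h : PolyTime (fun x => (rng (n x)).any (witB (L x) (s x) (t x))) :=
    PolyTime.any (g := fun x w => witB (L x) (s x) (t x) w) (by fun_prop) (by fun_prop)
  fun_prop

/-! ### Connected components -/

/-- One round of the closure: the triples equal to, or forced by, a triple in `S`. -/
def grow (n : ℕ) (L : List (ℕ × ℕ)) (S : List (ℕ × ℕ × ℕ)) : List (ℕ × ℕ × ℕ) :=
  (triples n).filter fun t => S.any fun s => s == t || forceB n L s t || forceB n L t s

theorem grow_polyTime : PolyTime (fun p : (ℕ × List (ℕ × ℕ)) × List (ℕ × ℕ × ℕ) =>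
    grow p.1.1 p.1.2 p.2) := by
  unfold grow
  refine PolyTime.filter (g := fun (p : (ℕ × List (ℕ × ℕ)) × List (ℕ × ℕ × ℕ)) t =>
    p.2.any fun s => s == t || forceB p.1.1 p.1.2 s t || forceB p.1.1 p.1.2 t s) (by fun_prop) ?_
  exact PolyTime.any
    (l := fun q : ((ℕ × List (ℕ × ℕ)) × List (ℕ × ℕ × ℕ)) × (ℕ × ℕ × ℕ) => q.1.2)
    (g := fun q s => s == q.2 || forceB q.1.1.1 q.1.1.2 s q.2 || forceB q.1.1.1 q.1.1.2 q.2 s)
    (by fun_prop) (by fun_prop)

/-- The connected component of `t`. -/
def comp (n : ℕ) (L : List (ℕ × ℕ)) (t : ℕ × ℕ × ℕ) : List (ℕ × ℕ × ℕ) :=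
  (grow n L)^[(triples n).length] [t]

theorem sz_grow_iterate (n : ℕ) (L : List (ℕ × ℕ)) (t : ℕ × ℕ × ℕ) (i : ℕ) :
    sz ((grow n L)^[i] [t]) ≤ sz (triples n) + sz [t] := by
  cases i with
  | zero => simp only [Function.iterate_zero, id_eq]; omega
  | succ i =>
    rw [Function.iterate_succ_apply', grow]
    have := sz_le_of_sublist (List.filter_sublist (l := triples n)
      (p := fun t' => ((grow n L)^[i] [t]).any fun s =>
        s == t' || forceB n L s t' || forceB n L t' s))
    omega

theorem comp_polyTime : PolyTime (fun p : (ℕ × List (ℕ × ℕ)) × (ℕ × ℕ × ℕ) =>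
    comp p.1.1 p.1.2 p.2) := by
  unfold comp
  have h1 : PBdd (fun p : (ℕ × List (ℕ × ℕ)) × (ℕ × ℕ × ℕ) => sz (triples p.1.1)) :=
    PolyTime.pbdd (by fun_prop)
  have h2 : PBdd (fun p : (ℕ × List (ℕ × ℕ)) × (ℕ × ℕ × ℕ) => sz [p.2]) :=
    PolyTime.pbdd (by fun_prop)
  refine PolyTime.iterate' (f := fun p : (ℕ × List (ℕ × ℕ)) × (ℕ × ℕ × ℕ) =>
    grow p.1.1 p.1.2) (n := fun p => (triples p.1.1).length) (g := fun p => [p.2]) ?_
    (by fun_prop) (by fun_prop) (s := fun p => sz (triples p.1.1) + sz [p.2])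
    (h1.add h2) (fun p i _ => sz_grow_iterate _ _ _ _)
  have := grow_polyTime
  exact this.comp (f := fun q : ((ℕ × List (ℕ × ℕ)) × (ℕ × ℕ × ℕ)) × List (ℕ × ℕ × ℕ) =>
    (q.1.1, q.2)) (by fun_prop)

/-- The test for one triple. -/
def goodB (n : ℕ) (L : List (ℕ × ℕ)) (t : ℕ × ℕ × ℕ) : Bool :=
  !(triB L t) || !((comp n L t).any fun s => s == (t.2.1, t.1, t.2.2))

/-- The whole test. -/
def okB (n : ℕ) (L : List (ℕ × ℕ)) : Bool := (triples n).all (goodB n L)

theorem goodB_polyTime : PolyTime (fun p : (ℕ × List (ℕ × ℕ)) × (ℕ × ℕ × ℕ) =>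
    goodB p.1.1 p.1.2 p.2) := by
  unfold goodB
  have h : PolyTime (fun p : (ℕ × List (ℕ × ℕ)) × (ℕ × ℕ × ℕ) =>
      (comp p.1.1 p.1.2 p.2).any fun s => s == (p.2.2.1, p.2.1, p.2.2.2)) :=
    PolyTime.any (g := fun (p : (ℕ × List (ℕ × ℕ)) × (ℕ × ℕ × ℕ)) s =>
      s == (p.2.2.1, p.2.1, p.2.2.2)) comp_polyTime (by fun_prop)
  fun_prop

theorem okB_polyTime : PolyTime (fun p : ℕ × List (ℕ × ℕ) => okB p.1 p.2) := by
  unfold okB
  exact PolyTime.all (l := fun p : ℕ × List (ℕ × ℕ) => triples p.1)
    (g := fun p t => goodB p.1 p.2 t) (by fun_prop) goodB_polyTime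

/-! ### Parsing -/

/-- Code of a list of pairs of numbers: every number `a` is written as `a` ones followed by a
zero. -/
def encodePairs (l : List (ℕ × ℕ)) : List Bool :=
  l.flatMap fun p => List.replicate p.1 true ++ false :: (List.replicate p.2 true ++ [false])

/-- One step of the parser. -/
def parseStep (s : List (ℕ × ℕ) × (Bool × (ℕ × ℕ))) (b : Bool) :
    List (ℕ × ℕ) × (Bool × (ℕ × ℕ)) :=
  bif b then (s.1, (s.2.1, (s.2.2.1, s.2.2.2 + 1)))
  else bif s.2.1 then ((s.2.2.1, s.2.2.2) :: s.1, (false, (0, 0)))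
  else (s.1, (true, (s.2.2.2, 0)))

/-- The parser. -/
def parse (l : List Bool) : List (ℕ × ℕ) := (l.foldl parseStep ([], (false, (0, 0)))).1.reverse

theorem parse_replicate (k : ℕ) : ∀ (o : List (ℕ × ℕ)) (f : Bool) (p c : ℕ),
    (List.replicate k true).foldl parseStep (o, (f, (p, c))) = (o, (f, (p, c + k))) := by
  induction k with
  | zero => intro o f p c; rfl
  | succ k ih =>
    intro o f p c
    rw [List.replicate_succ, List.foldl_cons]
    have : parseStep (o, (f, (p, c))) true = (o, (f, (p, c + 1))) := rfl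
    rw [this, ih]
    congr 3; omega

theorem parse_aux (l : List (ℕ × ℕ)) : ∀ (o : List (ℕ × ℕ)),
    (encodePairs l).foldl parseStep (o, (false, (0, 0))) = (l.reverse ++ o, (false, (0, 0))) := by
  induction l with
  | nil => intro o; rfl
  | cons p l ih =>
    intro o
    have e : encodePairs (p :: l) = (List.replicate p.1 true ++
        false :: (List.replicate p.2 true ++ [false])) ++ encodePairs l := by
      simp [encodePairs]
    have h1 : parseStep (o, (false, (0, 0 + p.1))) false = (o, (true, (p.1, 0))) := by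
      simp [parseStep]
    have h2 : parseStep (o, (true, (p.1, 0 + p.2))) false = (p :: o, (false, (0, 0))) := by
      simp [parseStep]
    rw [e, List.foldl_append, List.foldl_append, parse_replicate p.1 o false 0 0,
      List.foldl_cons, h1, List.foldl_append, parse_replicate p.2 o true p.1 0, List.foldl_cons,
      List.foldl_nil, h2, ih]
    simp

theorem parse_encodePairs (l : List (ℕ × ℕ)) : parse (encodePairs l) = l := by
  rw [parse, parse_aux]
  simp

theorem parse_polyTime : PolyTime parse := by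
  unfold parse
  have h : PolyTime (fun l : List Bool => l.foldl parseStep ([], (false, (0, 0)))) := by
    refine PolyTime.foldl_add (l := fun l : List Bool => l) (g := fun _ s b => parseStep s b)
      (y := fun _ => ([], (false, (0, 0)))) (by fun_prop) ?_ (by fun_prop) (s := fun _ => 20)
      (by fun_prop) ?_
    · unfold parseStep
      exact PolyTime.cond (by fun_prop) (by fun_prop)
        (PolyTime.cond (by fun_prop) (by fun_prop) (by fun_prop))
    · rintro - b - ⟨o, f, p, c⟩
      cases b
      · cases f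
        · change sz (o, (true, (c, 0))) ≤ sz (o, (false, (p, c))) + 20
          have h1 : sz true = 3 := rfl
          have h2 : sz false = 1 := rfl
          simp only [sz_prod, sz_nat, h1, h2]; omega
        · change sz ((p, c) :: o, (false, (0, 0))) ≤ sz (o, (true, (p, c))) + 20
          have h1 : sz true = 3 := rfl
          have h2 : sz false = 1 := rfl
          simp only [sz_prod, sz_nat, sz_cons, h1, h2]; omega
      · change sz (o, (f, (p, c + 1))) ≤ sz (o, (f, (p, c))) + 20
        simp only [sz_prod, sz_nat]; omega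
  exact (PolyTime.fst h).reverse

/-- The algorithm on bit strings. -/
def run (l : List Bool) : List Bool :=
  [okB ((parse l).headD (0, 0)).1 (parse l).tail]

theorem run_polyTime : PolyTime run := by
  unfold run
  have h1 := parse_polyTime
  have h2 : PolyTime (fun l : List Bool => okB ((parse l).headD (0, 0)).1 (parse l).tail) :=
    okB_polyTime.comp (f := fun l : List Bool => (((parse l).headD (0, 0)).1, (parse l).tail))
      (by fun_prop)
  fun_prop

end Pool.Agent.SemiTrans
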