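import Pool.Agent.SemiTrans.Defs

/-!
Chordal graphs have perfect elimination orderings (Dirac), in the form of a rank function.
-/

namespace Pool.Agent.SemiTrans

variable {V : Type*} {G : SimpleGraph V}

open SimpleGraph

/-- The walk `g 0, g 1, …, g n`. -/
def walkOfFn (G : SimpleGraph V) : (n : ℕ) → (g : ℕ → V) → (∀ i < n, G.Adj (g i) (g (i + 1))) →
    G.Walk (g 0) (g n)
  | 0, _, _ => Walk.nil
  | n + 1, g, h =>
    Walk.cons (h 0 (Nat.succ_pos n))
      (walkOfFn G n (fun i => g (i + 1)) (fun i hi => h (i + 1) (Nat.succ_lt_succ hi)))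

theorem walkOfFn_support (n : ℕ) (g : ℕ → V) (h : ∀ i < n, G.Adj (g i) (g (i + 1))) :
    (walkOfFn G n g h).support = (List.range (n + 1)).map g := by
  induction n generalizing g with
  | zero => simp [walkOfFn]
  | succ n ih =>
    rw [walkOfFn, Walk.support_cons, ih, List.range_succ_eq_map (n := n + 1)]
    simp [Function.comp_def]

theorem walkOfFn_edges (n : ℕ) (g : ℕ → V) (h : ∀ i < n, G.Adj (g i) (g (i + 1))) :
    (walkOfFn G n g h).edges = (List.range n).map (fun i => s(g i, g (i + 1))) := by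
  induction n generalizing g with
  | zero => simp [walkOfFn]
  | succ n ih =>
    rw [walkOfFn, Walk.edges_cons, ih, List.range_succ_eq_map (n := n)]
    simp [Function.comp_def]

theorem walkOfFn_length (n : ℕ) (g : ℕ → V) (h : ∀ i < n, G.Adj (g i) (g (i + 1))) :
    (walkOfFn G n g h).length = n := by
  induction n generalizing g with
  | zero => simp [walkOfFn]
  | succ n ih => rw [walkOfFn, Walk.length_cons, ih]

/-- Every cycle `g 0, …, g k` on at least four vertices has a chord, in terms of indices. -/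
theorem IsChordal.chord (hG : IsChordal G) {k : ℕ} (hk : 3 ≤ k) (g : ℕ → V)
    (hinj : Set.InjOn g (Set.Iic k)) (hadj : ∀ i < k, G.Adj (g i) (g (i + 1)))
    (hlast : G.Adj (g k) (g 0)) :
    ∃ i j, i + 2 ≤ j ∧ j ≤ k ∧ ¬ (i = 0 ∧ j = k) ∧ G.Adj (g i) (g j) := by
  classical
  set p := walkOfFn G k g hadj with hp
  set c : G.Walk (g k) (g k) := Walk.cons hlast p with hc
  have hsupp : p.support = (List.range (k + 1)).map g := walkOfFn_support _ _ _
  have hedges : p.edges = (List.range k).map (fun i => s(g i, g (i + 1))) := walkOfFn_edges _ _ _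
  have hpath : p.IsPath := by
    rw [Walk.isPath_def, hsupp]
    refine List.Nodup.map_on ?_ List.nodup_range
    intro x hx y hy hxy
    rw [List.mem_range] at hx hy
    exact hinj (Set.mem_Iic.2 (by omega)) (Set.mem_Iic.2 (by omega)) hxy
  have hcyc : c.IsCycle := by
    rw [hc, Walk.cons_isCycle_iff]
    refine ⟨hpath, ?_⟩
    rw [hedges]
    intro hmem
    rw [List.mem_map] at hmem
    obtain ⟨i, hi, hie⟩ := hmem
    rw [List.mem_range] at hi
    rw [Sym2.eq_iff] at hie
    rcases hie with ⟨h1, h2⟩ | ⟨h1, h2⟩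
    · have := hinj (Set.mem_Iic.2 (by omega)) (Set.mem_Iic.2 (by omega)) h1
      omega
    · have h3 := hinj (Set.mem_Iic.2 (by omega)) (Set.mem_Iic.2 (by omega)) h1
      have h4 := hinj (Set.mem_Iic.2 (by omega)) (Set.mem_Iic.2 (by omega)) h2
      omega
  have hlen : 4 ≤ c.length := by
    rw [hc, Walk.length_cons, hp, walkOfFn_length]; omega
  obtain ⟨x, hx, y, hy, hxy, hne⟩ := hG _ c hcyc hlen
  have hmem : ∀ z ∈ c.support, ∃ i ≤ k, z = g i := by
    intro z hz
    rw [hc, Walk.support_cons, hsupp, List.mem_cons, List.mem_map] at hz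
    rcases hz with rfl | ⟨i, hi, rfl⟩
    · exact ⟨k, le_rfl, rfl⟩
    · exact ⟨i, by rw [List.mem_range] at hi; omega, rfl⟩
  obtain ⟨i, hi, rfl⟩ := hmem x hx
  obtain ⟨j, hj, rfl⟩ := hmem y hy
  -- wlog i < j
  have key : ∀ i j, i ≤ k → j ≤ k → G.Adj (g i) (g j) → s(g i, g j) ∉ c.edges → i < j →
      ∃ i j, i + 2 ≤ j ∧ j ≤ k ∧ ¬ (i = 0 ∧ j = k) ∧ G.Adj (g i) (g j) := by
    intro i j hi hj hxy hne hij
    refine ⟨i, j, ?_, hj, ?_, hxy⟩
    · by_contra hcon
      have hji : j = i + 1 := by omega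
      subst hji
      apply hne
      rw [hc, Walk.edges_cons, hedges]
      refine List.mem_cons_of_mem _ ?_
      rw [List.mem_map]
      exact ⟨i, List.mem_range.2 (by omega), rfl⟩
    · rintro ⟨rfl, rfl⟩
      apply hne
      rw [hc, Walk.edges_cons, Sym2.eq_swap]
      exact List.mem_cons_self
  rcases lt_trichotomy i j with h | h | h
  · exact key i j hi hj hxy hne h
  · subst h; exact absurd hxy (G.loopless.irrefl _)
  · exact key j i hj hi hxy.symm (by rwa [Sym2.eq_swap]) h

end Pool.Agent.SemiTrans
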