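import Pool.Agent.SemiTrans.Dirac

/-!
The forcing relation on the arcs outside a stable set meeting all maximal cliques, the triangle
lemma, and the lexicographic orientation.
-/

namespace Pool.Agent.SemiTrans

variable {V : Type*} {G : SimpleGraph V}

open SimpleGraph

theorem exists_greedy (G : SimpleGraph V) (r : V → ℕ) :
    ∃ I : V → Prop, ∀ v, I v ↔ ∀ u, r u < r v → G.Adj u v → ¬ I u := by
  let F : (v : V) → ((u : V) → r u < r v → Prop) → Prop :=
    fun v rec => ∀ u (h : r u < r v), G.Adj u v → ¬ rec u h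
  have wf : WellFounded (fun a b : V => r a < r b) := (measure r).wf
  refine ⟨wf.fix F, fun v => ?_⟩
  rw [wf.fix_eq]

/-- `I` is independent, and every edge or triangle disjoint from `I` is completely joined to some
vertex of `I`. -/
structure Strong (G : SimpleGraph V) (I : V → Prop) : Prop where
  indep : ∀ u v, I u → I v → ¬ G.Adj u v
  edge : ∀ a b, G.Adj a b → ¬ I a → ¬ I b → ∃ v, I v ∧ G.Adj v a ∧ G.Adj v b
  tri : ∀ a b c, G.Adj a b → G.Adj a c → G.Adj b c → ¬ I a → ¬ I b → ¬ I c →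
    ∃ v, I v ∧ G.Adj v a ∧ G.Adj v b ∧ G.Adj v c

theorem exists_strong (r : V → ℕ) (hinj : Function.Injective r)
    (hr : ∀ v a b, a ≠ b → r a < r v → r b < r v → G.Adj v a → G.Adj v b → G.Adj a b) :
    ∃ I : V → Prop, Strong G I := by
  obtain ⟨I, hI⟩ := exists_greedy G r
  have hindep : ∀ u v, I u → I v → ¬ G.Adj u v := by
    intro u v hu hv huv
    rcases lt_trichotomy (r u) (r v) with h | h | h
    · exact (hI v).1 hv u h huv hu
    · exact huv.ne (hinj h)
    · exact (hI u).1 hu v h huv.symm hv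
  -- the key step: `m` not in `I` has an earlier neighbour in `I`, adjacent to all earlier neighbours
  have key : ∀ m, ¬ I m → ∃ v, I v ∧ G.Adj v m ∧ ∀ x, r x < r m → G.Adj m x → ¬ I x → G.Adj v x := by
    intro m hm
    rw [hI m] at hm
    push Not at hm
    obtain ⟨u, hu, hum, hIu⟩ := hm
    refine ⟨u, hIu, hum, ?_⟩
    intro x hx hmx hIx
    exact hr m u x (fun h => hIx (h ▸ hIu)) hu hx hum.symm hmx
  refine ⟨I, hindep, ?_, ?_⟩
  · intro a b hab ha hb
    rcases lt_trichotomy (r a) (r b) with h | h | h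
    · obtain ⟨v, h1, h2, h3⟩ := key b hb
      exact ⟨v, h1, h3 a h hab.symm ha, h2⟩
    · exact absurd (hinj h) hab.ne
    · obtain ⟨v, h1, h2, h3⟩ := key a ha
      exact ⟨v, h1, h2, h3 b h hab hb⟩
  · intro a b c hab hac hbc ha hb hc
    have hab' : r a ≠ r b := fun h => hab.ne (hinj h)
    have hac' : r a ≠ r c := fun h => hac.ne (hinj h)
    have hbc' : r b ≠ r c := fun h => hbc.ne (hinj h)
    by_cases h1 : r b < r a ∧ r c < r a
    · obtain ⟨v, h2, h3, h4⟩ := key a ha
      exact ⟨v, h2, h3, h4 b h1.1 hab hb, h4 c h1.2 hac hc⟩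
    · by_cases h2 : r a < r b ∧ r c < r b
      · obtain ⟨v, h3, h4, h5⟩ := key b hb
        exact ⟨v, h3, h5 a h2.1 hab.symm ha, h4, h5 c h2.2 hbc hc⟩
      · obtain ⟨v, h3, h4, h5⟩ := key c hc
        exact ⟨v, h3, h5 a (by omega) hac.symm ha, h5 b (by omega) hbc.symm hb, h4⟩

/-- The elementary forcing steps between arcs outside `I`. -/
inductive Step (G : SimpleGraph V) (I : V → Prop) : V × V → V × V → Prop
  | gammaOut {v q r s : V} : I v → G.Adj v q → G.Adj v r → G.Adj v s → G.Adj q r → G.Adj q s →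
      r ≠ s → ¬ G.Adj r s → Step G I (q, r) (q, s)
  | gammaIn {v q r s : V} : I v → G.Adj v q → G.Adj v r → G.Adj v s → G.Adj q r → G.Adj q s →
      r ≠ s → ¬ G.Adj r s → Step G I (r, q) (s, q)
  | deltaOut {v p q s : V} : I v → G.Adj v p → G.Adj v q → ¬ G.Adj v s → ¬ I s → G.Adj p q →
      G.Adj p s → G.Adj q s → Step G I (s, p) (s, q)
  | deltaIn {v p q s : V} : I v → G.Adj v p → G.Adj v q → ¬ G.Adj v s → ¬ I s → G.Adj p q →
      G.Adj p s → G.Adj q s → Step G I (p, s) (q, s)

theorem Step.symm {I : V → Prop} {x y : V × V} (h : Step G I x y) : Step G I y x := by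
  cases h with
  | gammaOut h1 h2 h3 h4 h5 h6 h7 h8 =>
    exact Step.gammaOut h1 h2 h4 h3 h6 h5 h7.symm (fun h => h8 h.symm)
  | gammaIn h1 h2 h3 h4 h5 h6 h7 h8 =>
    exact Step.gammaIn h1 h2 h4 h3 h6 h5 h7.symm (fun h => h8 h.symm)
  | deltaOut h1 h2 h3 h4 h5 h6 h7 h8 => exact Step.deltaOut h1 h3 h2 h4 h5 h6.symm h8 h7
  | deltaIn h1 h2 h3 h4 h5 h6 h7 h8 => exact Step.deltaIn h1 h3 h2 h4 h5 h6.symm h8 h7

theorem Step.swap {I : V → Prop} {a b c d : V} (h : Step G I (a, b) (c, d)) :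
    Step G I (b, a) (d, c) := by
  cases h with
  | gammaOut h1 h2 h3 h4 h5 h6 h7 h8 => exact Step.gammaIn h1 h2 h3 h4 h5 h6 h7 h8
  | gammaIn h1 h2 h3 h4 h5 h6 h7 h8 => exact Step.gammaOut h1 h2 h3 h4 h5 h6 h7 h8
  | deltaOut h1 h2 h3 h4 h5 h6 h7 h8 => exact Step.deltaIn h1 h2 h3 h4 h5 h6 h7 h8
  | deltaIn h1 h2 h3 h4 h5 h6 h7 h8 => exact Step.deltaOut h1 h2 h3 h4 h5 h6 h7 h8

/-- Arcs forced to be oriented simultaneously. -/
def Rel (G : SimpleGraph V) (I : V → Prop) : V × V → V × V → Prop :=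
  Relation.ReflTransGen (Step G I)

theorem Rel.refl {I : V → Prop} (x : V × V) : Rel G I x x := Relation.ReflTransGen.refl

theorem Rel.trans {I : V → Prop} {x y z : V × V} (h : Rel G I x y) (h' : Rel G I y z) :
    Rel G I x z := Relation.ReflTransGen.trans h h'

theorem Step.rel {I : V → Prop} {x y : V × V} (h : Step G I x y) : Rel G I x y :=
  Relation.ReflTransGen.single h

theorem Rel.symm {I : V → Prop} {x y : V × V} (h : Rel G I x y) : Rel G I y x := by
  induction h with
  | refl => exact Rel.refl _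
  | tail _ hbc ih => exact Relation.ReflTransGen.head hbc.symm ih

theorem Rel.swap {I : V → Prop} {x y : V × V} (h : Rel G I x y) : Rel G I x.swap y.swap := by
  induction h with
  | refl => exact Rel.refl _
  | tail _ hbc ih => exact Relation.ReflTransGen.tail ih (Step.swap hbc)

theorem Rel.swap' {I : V → Prop} {a b c d : V} (h : Rel G I (a, b) (c, d)) :
    Rel G I (b, a) (d, c) := Rel.swap h

/-- An active arc: an edge with both ends outside `I`. -/
def Act (G : SimpleGraph V) (I : V → Prop) (x : V × V) : Prop :=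
  G.Adj x.1 x.2 ∧ ¬ I x.1 ∧ ¬ I x.2

theorem Step.act {I : V → Prop} (hI : Strong G I) {x y : V × V} (h : Step G I x y) :
    Act G I x := by
  cases h with
  | gammaOut h1 h2 h3 h4 h5 h6 h7 h8 =>
    exact ⟨h5, fun h => hI.indep _ _ h1 h h2, fun h => hI.indep _ _ h1 h h3⟩
  | gammaIn h1 h2 h3 h4 h5 h6 h7 h8 =>
    exact ⟨h5.symm, fun h => hI.indep _ _ h1 h h3, fun h => hI.indep _ _ h1 h h2⟩
  | deltaOut h1 h2 h3 h4 h5 h6 h7 h8 => exact ⟨h7.symm, h5, fun h => hI.indep _ _ h1 h h2⟩
  | deltaIn h1 h2 h3 h4 h5 h6 h7 h8 => exact ⟨h7, fun h => hI.indep _ _ h1 h h2, h5⟩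

theorem Rel.act {I : V → Prop} (hI : Strong G I) {x y : V × V} (h : Rel G I x y)
    (hx : Act G I x) : Act G I y := by
  rcases Relation.ReflTransGen.cases_tail h with h | ⟨c, _, hc⟩
  · rw [h]; exact hx
  · exact (Step.symm hc).act hI

/-- The triangle `a b c` outside `I` is unforced: no vertex is forced to be extreme. -/
structure Unforced (G : SimpleGraph V) (I : V → Prop) (a b c : V) : Prop where
  ha : ¬ I a
  hb : ¬ I b
  hc : ¬ I c
  ab : G.Adj a b
  ac : G.Adj a c
  bc : G.Adj b c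
  fc : ¬ Rel G I (b, c) (a, c)
  fb : ¬ Rel G I (b, c) (b, a)
  fa : ¬ Rel G I (a, b) (a, c)

theorem Unforced.swap {I : V → Prop} {a b c : V} (h : Unforced G I a b c) :
    Unforced G I a c b :=
  ⟨h.ha, h.hc, h.hb, h.ac, h.ab, h.bc.symm, fun h' => h.fb h'.swap', fun h' => h.fc h'.swap',
    fun h' => h.fa h'.symm⟩

theorem unforced_step_in {I : V → Prop} (hI : Strong G I) {a b c b' : V}
    (h : Unforced G I a b c) (hs : Step G I (b, c) (b', c)) :
    G.Adj a b' ∧ Rel G I (a, b) (a, b') := by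
  obtain ⟨ha, hb, hc, hab, hac, hbc, fc, fb, fa⟩ := h
  -- a vertex `w` of `I` adjacent to `b`, `c` is adjacent to `a`
  have hw_a : ∀ w, I w → G.Adj w b → G.Adj w c → G.Adj w a := by
    intro w hw hwb hwc
    by_contra hwa
    have : Step G I (a, b) (a, c) := Step.deltaOut hw hwb hwc hwa ha hbc hab.symm hac.symm
    exact fa this.rel
  -- if a vertex `u` of `I` is adjacent to `a, b', c`, then `a, b'` are adjacent
  have hadj : ∀ u, I u → G.Adj u a → G.Adj u b' → G.Adj u c → a ≠ b' → G.Adj c b' →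
      Step G I (b, c) (b', c) → G.Adj a b' := by
    intro u hu hua hub' huc hne hcb' hstep
    by_contra hab'
    have h1 : Step G I (a, c) (b', c) := Step.gammaIn hu huc hua hub' hac.symm hcb' hne hab'
    exact fc (hstep.rel.trans h1.symm.rel)
  have hne : a ≠ b' := by
    rintro rfl
    exact fc hs.rel
  cases hs with
  | gammaOut h1 h2 h3 h4 h5 h6 h7 h8 => exact absurd rfl h7
  | @gammaIn v _ _ _ h1 h2 h3 h4 h5 h6 h7 h8 =>
    -- `b`, `b'` nonadjacent, `v` adjacent to `b, b', c`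
    have hva : G.Adj v a := hw_a v h1 h3 h2
    have hab' : G.Adj a b' := hadj v h1 hva h4 h2 hne h6 (Step.gammaIn h1 h2 h3 h4 h5 h6 h7 h8)
    refine ⟨hab', ?_⟩
    exact (Step.gammaOut h1 hva h3 h4 hab hab' h7 h8).rel
  | deltaOut h1 h2 h3 h4 h5 h6 h7 h8 => exact absurd rfl h6.ne
  | @deltaIn v _ _ _ h1 h2 h3 h4 h5 h6 h7 h8 =>
    -- `b b' c` triangle, `v` adjacent to `b, b'` and not to `c`
    have hb' : ¬ I b' := fun h => hI.indep _ _ h1 h h3
    have hva : ¬ G.Adj v a := by
      intro hva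
      have : Step G I (b, c) (a, c) := Step.deltaIn h1 h2 hva h4 h5 hab.symm h7 hac
      exact fc this.rel
    obtain ⟨u, hu, hub, hub', huc⟩ := hI.tri b b' c h6 h7 h8 hb hb' hc
    have hua : G.Adj u a := hw_a u hu hub huc
    have hab' : G.Adj a b' := hadj u hu hua hub' huc hne h8.symm (Step.deltaIn h1 h2 h3 h4 h5 h6 h7 h8)
    refine ⟨hab', ?_⟩
    exact (Step.deltaOut h1 h2 h3 hva ha h6 hab.symm hab'.symm).rel

theorem unforced_step {I : V → Prop} (hI : Strong G I) {a b c b' c' : V}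
    (h : Unforced G I a b c) (hs : Step G I (b, c) (b', c')) :
    Unforced G I a b' c' ∧ Rel G I (a, b) (a, b') ∧ Rel G I (a, c) (a, c') := by
  have hs0 := hs
  have hact : Act G I (b', c') := hs.symm.act hI
  -- either the first or the second coordinate is unchanged
  have hcase : c = c' ∨ b = b' := by
    cases hs with
    | gammaOut => exact Or.inr rfl
    | gammaIn => exact Or.inl rfl
    | deltaOut => exact Or.inr rfl
    | deltaIn => exact Or.inl rfl
  rcases hcase with rfl | rfl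
  · obtain ⟨h1, h2⟩ := unforced_step_in hI h hs
    refine ⟨⟨h.ha, hact.2.1, h.hc, h1, h.ac, hact.1, ?_, ?_, ?_⟩, h2, Rel.refl _⟩
    · intro h3; exact h.fc (hs0.rel.trans h3)
    · intro h3; exact h.fb ((hs0.rel.trans h3).trans h2.symm.swap')
    · intro h3; exact h.fa (h2.trans h3)
  · have hs' := hs.swap
    obtain ⟨h1, h2⟩ := unforced_step_in hI h.swap hs'
    refine ⟨⟨h.ha, h.hb, hact.2.2, h.ab, h1, hact.1, ?_, ?_, ?_⟩, Rel.refl _, h2⟩
    · intro h3; exact h.fc ((hs0.rel.trans h3).trans h2.symm)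
    · intro h3; exact h.fb (hs0.rel.trans h3)
    · intro h3; exact h.fa (h3.trans h2.symm)

/-- The triangle lemma. -/
theorem unforced_rel {I : V → Prop} (hI : Strong G I) {a b c : V}
    (h : Unforced G I a b c) {y : V × V} (hs : Rel G I (b, c) y) :
    Unforced G I a y.1 y.2 ∧ Rel G I (a, b) (a, y.1) ∧ Rel G I (a, c) (a, y.2) := by
  induction hs with
  | refl => exact ⟨h, Rel.refl _, Rel.refl _⟩
  | @tail y z _ hyz ih =>
    obtain ⟨h1, h2, h3⟩ := ih
    obtain ⟨h4, h5, h6⟩ := unforced_step hI h1 (b' := z.1) (c' := z.2) hyz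
    exact ⟨h4, h2.trans h5, h3.trans h6⟩

/-- An orientation of the active arcs, constant on forcing classes and without cyclic
triangles, exists as soon as no arc is forced to agree with its reversal. -/
theorem exists_orientation {I : V → Prop} (hI : Strong G I) (r : V → ℕ)
    (hinj : Function.Injective r)
    (hcons : ∀ a b, Act G I (a, b) → ¬ Rel G I (a, b) (b, a)) :
    ∃ X : V → V → Prop,
      (∀ a b, Act G I (a, b) → (X a b ∨ X b a)) ∧
      (∀ a b, Act G I (a, b) → X a b → ¬ X b a) ∧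
      (∀ a b c d, Act G I (a, b) → Rel G I (a, b) (c, d) → X a b → X c d) ∧
      (∀ a b c, ¬ I a → ¬ I b → ¬ I c → G.Adj a b → G.Adj b c → G.Adj a c →
        X a b → X b c → ¬ X c a) := by
  classical
  -- the candidates for the lexicographically first edge of a class
  let S : V → V → Set (ℕ ×ₗ ℕ) := fun a b =>
    {k | ∃ i j, r i < r j ∧ k = toLex (r i, r j) ∧
      (Rel G I (i, j) (a, b) ∨ Rel G I (j, i) (a, b))}
  have hSne : ∀ a b, Act G I (a, b) → (S a b).Nonempty := by
    intro a b hab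
    rcases lt_trichotomy (r a) (r b) with h | h | h
    · exact ⟨_, a, b, h, rfl, Or.inl (Rel.refl _)⟩
    · exact absurd (hinj h) hab.1.ne
    · exact ⟨_, b, a, h, rfl, Or.inr (Rel.refl _)⟩
  have hSswap : ∀ a b, S a b = S b a := by
    intro a b
    ext k
    constructor
    · rintro ⟨i, j, h1, h2, h3⟩
      exact ⟨i, j, h1, h2, h3.elim (fun h => Or.inr h.swap') (fun h => Or.inl h.swap')⟩
    · rintro ⟨i, j, h1, h2, h3⟩
      exact ⟨i, j, h1, h2, h3.elim (fun h => Or.inr h.swap') (fun h => Or.inl h.swap')⟩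
  have hSrel : ∀ a b c d, Rel G I (a, b) (c, d) → S a b = S c d := by
    intro a b c d h
    ext k
    constructor
    · rintro ⟨i, j, h1, h2, h3⟩
      exact ⟨i, j, h1, h2, h3.imp (fun h' => h'.trans h) (fun h' => h'.trans h)⟩
    · rintro ⟨i, j, h1, h2, h3⟩
      exact ⟨i, j, h1, h2, h3.imp (fun h' => h'.trans h.symm) (fun h' => h'.trans h.symm)⟩
  have wf : WellFounded (fun a b : ℕ ×ₗ ℕ => a < b) := wellFounded_lt
  let X : V → V → Prop := fun a b => ∃ i j, r i < r j ∧ Rel G I (i, j) (a, b) ∧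
    ∀ k ∈ S a b, toLex (r i, r j) ≤ k
  have hXrel : ∀ a b c d, Rel G I (a, b) (c, d) → X a b → X c d := by
    rintro a b c d h ⟨i, j, h1, h2, h3⟩
    refine ⟨i, j, h1, h2.trans h, ?_⟩
    rw [← hSrel a b c d h]
    exact h3
  have hXtot : ∀ a b, Act G I (a, b) → (X a b ∨ X b a) := by
    intro a b hab
    have hmem := wf.min_mem (S a b) (hSne a b hab)
    have hmin : ∀ k ∈ S a b, wf.min (S a b) (hSne a b hab) ≤ k := by
      intro k hk
      exact not_lt.1 (wf.not_lt_min (S a b) hk)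
    obtain ⟨i, j, h1, h2, h3⟩ := hmem
    rw [h2] at hmin
    rcases h3 with h3 | h3
    · exact Or.inl ⟨i, j, h1, h3, hmin⟩
    · right
      refine ⟨i, j, h1, h3.swap', ?_⟩
      rw [← hSswap a b]
      exact hmin
  have hXanti : ∀ a b, Act G I (a, b) → X a b → ¬ X b a := by
    rintro a b hab ⟨i, j, h1, h2, h3⟩ ⟨i', j', h1', h2', h3'⟩
    have e1 := h3 _ ⟨i', j', h1', rfl, Or.inr h2'.swap'⟩
    have e2 := h3' _ ⟨i, j, h1, rfl, Or.inr h2.swap'⟩
    have e3 : toLex (r i, r j) = toLex (r i', r j') := le_antisymm e1 e2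
    have e4 : (r i, r j) = (r i', r j') := toLex.injective e3
    rw [Prod.mk.injEq] at e4
    have e5 : i = i' := hinj e4.1
    have e6 : j = j' := hinj e4.2
    subst e5; subst e6
    exact hcons a b hab (h2.symm.trans h2')
  refine ⟨X, hXtot, hXanti, fun a b c d _ h h' => hXrel a b c d h h', ?_⟩
  -- no cyclic triangle, by descent on the smallest rank
  have key : ∀ N, ∀ a b c, ¬ I a → ¬ I b → ¬ I c → G.Adj a b → G.Adj b c → G.Adj a c →
      X a b → X b c → X c a → r a ≤ r b → r a ≤ r c → r a = N → False := by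
    intro N
    induction N using Nat.strong_induction_on with
    | _ N ih =>
      intro a b c ha hb hc hab hbc hac Xab Xbc Xca hrb hrc hN
      have Aab : Act G I (a, b) := ⟨hab, ha, hb⟩
      have Abc : Act G I (b, c) := ⟨hbc, hb, hc⟩
      have Aca : Act G I (c, a) := ⟨hac.symm, hc, ha⟩
      -- apex `b`, base arc `(c, a)`
      have hU : Unforced G I b c a := by
        refine ⟨hb, hc, ha, hbc, hab.symm, hac.symm, ?_, ?_, ?_⟩
        · intro h; exact hXanti a b Aab Xab (hXrel _ _ _ _ h Xca)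
        · intro h; exact hXanti b c Abc Xbc (hXrel _ _ _ _ h Xca)
        · intro h; exact hXanti a b Aab Xab (hXrel _ _ _ _ h Xbc)
      obtain ⟨i, j, hij, hrel, hmin⟩ := Xca
      obtain ⟨h1, h2, h3⟩ := unforced_rel hI hU hrel.symm
      simp only at h1 h2 h3
      have hra : r a < r c := lt_of_le_of_ne hrc (fun h => hac.ne (hinj h))
      have hle : toLex (r i, r j) ≤ toLex (r a, r c) :=
        hmin _ ⟨a, c, hra, rfl, Or.inr (Rel.refl _)⟩
      have hria : r i ≤ r a := by
        rw [Prod.Lex.toLex_le_toLex] at hle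
        rcases hle with h | h
        · exact h.le
        · exact h.1.le
      have Xij : X i j := hXrel c a i j hrel.symm ⟨i, j, hij, hrel, hmin⟩
      have Xbi : X b i := hXrel _ _ _ _ h2 Xbc
      have Xjb : X j b := hXrel _ _ _ _ h3.swap' Xab
      rcases Nat.lt_or_ge (r i) (r a) with hlt | hge
      · -- the triangle i, j, b is cyclic with smaller minimum
        by_cases hbi : r i ≤ r b
        · exact ih (r i) (by omega) i j b h1.hb h1.hc h1.ha h1.bc h1.ac.symm h1.ab.symm
            Xij Xjb Xbi hij.le hbi rfl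
        · omega
      · have hia : i = a := hinj (by omega)
        subst hia
        exact hXanti i b Aab Xab Xbi
  intro a b c ha hb hc hab hbc hac Xab Xbc Xca
  rcases le_total (r a) (r b) with h1 | h1
  · rcases le_total (r a) (r c) with h2 | h2
    · exact key _ a b c ha hb hc hab hbc hac Xab Xbc Xca h1 h2 rfl
    · exact key _ c a b hc ha hb hac.symm hab hbc.symm Xca Xab Xbc h2 (h2.trans h1) rfl
  · rcases le_total (r b) (r c) with h2 | h2
    · exact key _ b c a hb hc ha hbc hac.symm hab.symm Xbc Xca Xab h2 h1 rfl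
    · exact key _ c a b hc ha hb hac.symm hab hbc.symm Xca Xab Xbc (h2.trans h1) h2 rfl

end Pool.Agent.SemiTrans
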