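import Pool.Agent.SemiTrans.Defs

/-!
Chordal graphs as inputs of an algorithm.
-/

namespace Pool.Agent.SemiTrans

/-- `L` is a list of the edges of the graph `G` on the vertices `0, …, n - 1`: a list of ordered
pairs of vertices, without repetition, such that `a` and `b` are adjacent iff at least one of the
pairs `(a, b)` and `(b, a)` is in the list. -/
def IsEdgeList {n : ℕ} (G : SimpleGraph (Fin n)) (L : List (Fin n × Fin n)) : Prop :=
  L.Nodup ∧ ∀ a b, G.Adj a b ↔ ((a, b) ∈ L ∨ (b, a) ∈ L)

/-- An input: a number `n`, a chordal graph on the vertices `0, …, n - 1`, and a list of its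
edges. -/
structure ChordalInput where
  n : ℕ
  graph : SimpleGraph (Fin n)
  edges : List (Fin n × Fin n)
  isChordal : IsChordal graph
  isEdgeList : IsEdgeList graph edges

/-- The number `a` is written as `a` ones followed by a zero. -/
def unary (a : ℕ) : List Bool := List.replicate a true ++ [false]

/-- The input is written as the number of vertices, the number of the listed edges, and the two
ends of each of the listed edges. -/
def ChordalInput.encode (x : ChordalInput) : List Bool :=
  unary x.n ++ unary x.edges.length ++
    x.edges.flatMap fun e => unary (e.1 : ℕ) ++ unary (e.2 : ℕ)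

end Pool.Agent.SemiTrans
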