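import Pool.Agent.SemiTrans.Alg
import Pool.Agent.SemiTrans.Encode

/-!
Correctness of the algorithm.
-/

namespace Pool.Agent.SemiTrans

variable {n : ℕ}

/-- The edge list as a list of pairs of numbers. -/
def natEdges (L : List (Fin n × Fin n)) : List (ℕ × ℕ) := L.map fun e => (e.1.val, e.2.val)

/-- A triple of vertices as a triple of numbers. -/
def nat3 (t : Fin n × Fin n × Fin n) : ℕ × ℕ × ℕ := (t.1.val, t.2.1.val, t.2.2.val)

theorem nat3_inj {s t : Fin n × Fin n × Fin n} : nat3 s = nat3 t ↔ s = t := by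
  obtain ⟨a, b, c⟩ := s
  obtain ⟨a', b', c'⟩ := t
  simp [nat3, Fin.ext_iff]

theorem nat3_mem (t : Fin n × Fin n × Fin n) : nat3 t ∈ triples n := by
  rw [mem_triples]
  exact ⟨t.1.2, t.2.1.2, t.2.2.2⟩

theorem exists_nat3 {x : ℕ × ℕ × ℕ} (h : x ∈ triples n) : ∃ t : Fin n × Fin n × Fin n,
    x = nat3 t := by
  rw [mem_triples] at h
  exact ⟨(⟨x.1, h.1⟩, ⟨x.2.1, h.2.1⟩, ⟨x.2.2, h.2.2⟩), rfl⟩

theorem adjB_iff {G : SimpleGraph (Fin n)} {L : List (Fin n × Fin n)} (hL : IsEdgeList G L)
    (a b : Fin n) : adjB (natEdges L) a b = true ↔ G.Adj a b := by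
  have key : adjB (natEdges L) a b = true ↔ (a, b) ∈ L ∨ (b, a) ∈ L := by
    simp only [adjB, natEdges, List.any_eq_true, List.mem_map, Bool.or_eq_true, beq_iff_eq]
    constructor
    · rintro ⟨x, ⟨e, he, rfl⟩, h⟩
      simp only [Prod.mk.injEq] at h
      rcases h with ⟨h1, h2⟩ | ⟨h1, h2⟩
      · left
        have h3 : e.1 = a := Fin.ext h1
        have h4 : e.2 = b := Fin.ext h2
        rw [← h3, ← h4]; exact he
      · right
        have h3 : e.1 = b := Fin.ext h1
        have h4 : e.2 = a := Fin.ext h2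
        rw [← h3, ← h4]; exact he
    · rintro (h | h)
      · exact ⟨_, ⟨_, h, rfl⟩, Or.inl rfl⟩
      · exact ⟨_, ⟨_, h, rfl⟩, Or.inr rfl⟩
  rw [key, hL.2]

theorem triB_iff {G : SimpleGraph (Fin n)} {L : List (Fin n × Fin n)} (hL : IsEdgeList G L)
    (t : Fin n × Fin n × Fin n) :
    triB (natEdges L) (nat3 t) = true ↔ Tri G t.1 t.2.1 t.2.2 := by
  simp only [triB, nat3, Bool.and_eq_true, adjB_iff hL, Tri, and_assoc]

theorem witB_iff {G : SimpleGraph (Fin n)} {L : List (Fin n × Fin n)} (hL : IsEdgeList G L)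
    (s t : Fin n × Fin n × Fin n) (w : Fin n) :
    witB (natEdges L) (nat3 s) (nat3 t) w = true ↔
      G.Adj w s.2.2 ∧ G.Adj w t.2.2 ∧ ¬ G.Adj w s.1 ∧ ¬ G.Adj w s.2.1 ∧ w ≠ s.1 ∧ w ≠ s.2.1 := by
  simp only [witB, nat3, Bool.and_eq_true, adjB_iff hL, and_assoc, Bool.not_eq_true',
    ← Bool.not_eq_true, beq_iff_eq, Fin.val_inj, ne_eq]

theorem forceB_iff {G : SimpleGraph (Fin n)} {L : List (Fin n × Fin n)} (hL : IsEdgeList G L)
    (s t : Fin n × Fin n × Fin n) :
    forceB n (natEdges L) (nat3 s) (nat3 t) = true ↔ Force G s t := by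
  obtain ⟨a, b, c⟩ := s
  obtain ⟨a', b', c'⟩ := t
  simp only [forceB, Bool.and_eq_true, Bool.or_eq_true, triB_iff hL, List.any_eq_true, mem_rng]
  constructor
  · rintro ⟨ht, h | ⟨⟨⟨⟨ht', h1⟩, h2⟩, h3⟩, h4⟩⟩
    · have e : (a', b', c') = (b, c, a) := by
        rw [← nat3_inj]
        simpa [nat3] using h
      rw [e]
      exact Force.rot ht
    · simp only [nat3, beq_iff_eq, Fin.val_inj] at h1 h2
      subst h1 h2
      have h3' : c ≠ c' := by
        intro e
        rw [e] at h3
        simp at h3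
      rcases h4 with h4 | ⟨w, hw, h4⟩
      · have : ¬ G.Adj c c' := by
          rw [← adjB_iff hL]
          simpa [nat3] using h4
        exact Force.flip ht ht' h3' this
      · by_cases hcc : G.Adj c c'
        · rw [show w = ((⟨w, hw⟩ : Fin n) : ℕ) from rfl, witB_iff hL] at h4
          obtain ⟨g1, g2, g3, g4, g5, g6⟩ := h4
          exact Force.side ht ht' hcc g1 g2 g3 g4 g5 g6
        · exact Force.flip ht ht' h3' hcc
  · intro h
    cases h with
    | rot ht => exact ⟨ht, Or.inl (by simp [nat3])⟩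
    | flip ht ht' h1 h2 =>
      refine ⟨ht, Or.inr ⟨⟨⟨⟨ht', by simp [nat3]⟩, by simp [nat3]⟩, ?_⟩, Or.inl ?_⟩⟩
      · simpa [nat3, Fin.val_inj] using h1
      · rw [← adjB_iff hL] at h2
        simpa [nat3] using h2
    | @side _ _ _ _ w ht ht' h1 h2 h3 h4 h5 h6 h7 =>
      refine ⟨ht, Or.inr ⟨⟨⟨⟨ht', by simp [nat3]⟩, by simp [nat3]⟩, ?_⟩, Or.inr ⟨w, w.2, ?_⟩⟩⟩
      · simpa [nat3, Fin.val_inj] using h1.ne
      · rw [witB_iff hL]
        exact ⟨h2, h3, h4, h5, h6, h7⟩

theorem mem_grow {G : SimpleGraph (Fin n)} {L : List (Fin n × Fin n)} (hL : IsEdgeList G L)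
    (S : List (ℕ × ℕ × ℕ)) (hS : ∀ x ∈ S, x ∈ triples n) (t : Fin n × Fin n × Fin n) :
    nat3 t ∈ grow n (natEdges L) S ↔
      ∃ s : Fin n × Fin n × Fin n, nat3 s ∈ S ∧ (s = t ∨ Force G s t ∨ Force G t s) := by
  simp only [grow, List.mem_filter, nat3_mem, true_and, List.any_eq_true, Bool.or_eq_true,
    beq_iff_eq]
  constructor
  · rintro ⟨x, hx, h⟩
    obtain ⟨s, rfl⟩ := exists_nat3 (hS x hx)
    refine ⟨s, hx, ?_⟩
    rw [nat3_inj, forceB_iff hL, forceB_iff hL] at h
    rcases h with (h | h) | h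
    · exact Or.inl h
    · exact Or.inr (Or.inl h)
    · exact Or.inr (Or.inr h)
  · rintro ⟨s, hs, h⟩
    refine ⟨nat3 s, hs, ?_⟩
    rw [nat3_inj, forceB_iff hL, forceB_iff hL]
    rcases h with h | h | h
    · exact Or.inl (Or.inl h)
    · exact Or.inl (Or.inr h)
    · exact Or.inr h

theorem grow_sub (L : List (ℕ × ℕ)) (S : List (ℕ × ℕ × ℕ)) :
    ∀ x ∈ grow n L S, x ∈ triples n := by
  intro x hx
  simp only [grow, List.mem_filter] at hx
  exact hx.1

/-- The graph of elementary forcing steps. -/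
def forceGraph (G : SimpleGraph (Fin n)) : SimpleGraph (Fin n × Fin n × Fin n) :=
  SimpleGraph.fromRel (Force G)

theorem mem_iterate_of_walk {G : SimpleGraph (Fin n)} {L : List (Fin n × Fin n)}
    (hL : IsEdgeList G L) {s t : Fin n × Fin n × Fin n} (p : (forceGraph G).Walk s t) :
    ∀ (S : List (ℕ × ℕ × ℕ)), (∀ x ∈ S, x ∈ triples n) → nat3 s ∈ S → ∀ k, p.length ≤ k →
      nat3 t ∈ (grow n (natEdges L))^[k] S := by
  induction p with
  | nil =>
    intro S hS hs k _
    induction k generalizing S with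
    | zero => exact hs
    | succ k ih =>
      rw [Function.iterate_succ_apply]
      refine ih _ (grow_sub _ _) ?_ (Nat.zero_le _)
      rw [mem_grow hL S hS]
      exact ⟨_, hs, Or.inl rfl⟩
  | @cons u v w h q ih =>
    intro S hS hs k hk
    rw [SimpleGraph.Walk.length_cons] at hk
    obtain ⟨k, rfl⟩ : ∃ k', k = k' + 1 := ⟨k - 1, by omega⟩
    rw [Function.iterate_succ_apply]
    refine ih _ (grow_sub _ _) ?_ k (by omega)
    rw [mem_grow hL S hS]
    refine ⟨u, hs, Or.inr ?_⟩
    rw [forceGraph, SimpleGraph.fromRel_adj] at h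
    exact h.2

theorem eqvGen_of_mem_iterate {G : SimpleGraph (Fin n)} {L : List (Fin n × Fin n)}
    (hL : IsEdgeList G L) (s : Fin n × Fin n × Fin n) (k : ℕ) :
    ∀ (S : List (ℕ × ℕ × ℕ)), (∀ x ∈ S, x ∈ triples n) →
      (∀ t, nat3 t ∈ S → Relation.EqvGen (Force G) s t) →
      ∀ t, nat3 t ∈ (grow n (natEdges L))^[k] S → Relation.EqvGen (Force G) s t := by
  induction k with
  | zero => intro S _ h t ht; exact h t ht
  | succ k ih =>
    intro S hS h t ht
    rw [Function.iterate_succ_apply] at ht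
    refine ih _ (grow_sub _ _) ?_ t ht
    intro u hu
    rw [mem_grow hL S hS] at hu
    obtain ⟨v, hv, h1⟩ := hu
    rcases h1 with rfl | h1 | h1
    · exact h v hv
    · exact (h v hv).trans _ _ _ (Relation.EqvGen.rel _ _ h1)
    · exact (h v hv).trans _ _ _ ((Relation.EqvGen.rel _ _ h1).symm _ _)

theorem reachable_of_eqvGen {G : SimpleGraph (Fin n)} {s t : Fin n × Fin n × Fin n}
    (h : Relation.EqvGen (Force G) s t) : (forceGraph G).Reachable s t := by
  induction h with
  | rel x y h =>
    by_cases e : x = y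
    · subst e; exact SimpleGraph.Reachable.refl _
    · refine SimpleGraph.Adj.reachable ?_
      rw [forceGraph, SimpleGraph.fromRel_adj]
      exact ⟨e, Or.inl h⟩
  | refl x => exact SimpleGraph.Reachable.refl _
  | symm x y _ ih => exact ih.symm
  | trans x y z _ _ ih1 ih2 => exact ih1.trans ih2

theorem mem_comp {G : SimpleGraph (Fin n)} {L : List (Fin n × Fin n)}
    (hL : IsEdgeList G L) (s t : Fin n × Fin n × Fin n) :
    nat3 t ∈ comp n (natEdges L) (nat3 s) ↔ Relation.EqvGen (Force G) s t := by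
  constructor
  · intro h
    refine eqvGen_of_mem_iterate hL s _ [nat3 s] ?_ ?_ t h
    · intro x hx
      rw [List.mem_singleton] at hx
      rw [hx]
      exact nat3_mem s
    · intro u hu
      rw [List.mem_singleton, nat3_inj] at hu
      rw [hu]
      exact Relation.EqvGen.refl _
  · intro h
    obtain ⟨p, hp⟩ := (reachable_of_eqvGen h).exists_isPath
    refine mem_iterate_of_walk hL p [nat3 s] ?_ (List.mem_singleton.2 rfl) _ ?_
    · intro x hx
      rw [List.mem_singleton] at hx
      rw [hx]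
      exact nat3_mem s
    · have h1 := hp.length_lt
      simp only [Fintype.card_prod, Fintype.card_fin] at h1
      rw [length_triples]
      exact h1.le

theorem okB_iff {G : SimpleGraph (Fin n)} {L : List (Fin n × Fin n)}
    (hL : IsEdgeList G L) : okB n (natEdges L) = true ↔
      ∀ a b c, Tri G a b c → ¬ Relation.EqvGen (Force G) (a, b, c) (b, a, c) := by
  simp only [okB, List.all_eq_true, goodB, Bool.or_eq_true, Bool.not_eq_true', List.any_eq_false,
    beq_iff_eq]
  constructor
  · intro h a b c ht h1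
    have h2 := h _ (nat3_mem (a, b, c))
    rcases h2 with h2 | h2
    · rw [← Bool.not_eq_true, triB_iff hL] at h2
      exact h2 ht
    · rw [← mem_comp hL] at h1
      exact h2 _ h1 rfl
  · intro h x hx
    obtain ⟨⟨a, b, c⟩, rfl⟩ := exists_nat3 hx
    by_cases ht : Tri G a b c
    · right
      intro y hy e
      refine h a b c ht ?_
      rw [← mem_comp hL]
      rw [e] at hy
      exact hy
    · left
      rw [← Bool.not_eq_true, triB_iff hL]
      exact ht

theorem encode_eq (x : ChordalInput) :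
    x.encode = encodePairs ((x.n, x.edges.length) :: natEdges x.edges) := by
  simp [ChordalInput.encode, encodePairs, natEdges, unary, List.flatMap_map, List.append_assoc]

theorem run_encode (x : ChordalInput) (b : Bool) (hb : b = true ↔ SemiTransitive x.graph) :
    run x.encode = [b] := by
  have h : okB x.n (natEdges x.edges) = b := by
    rw [Bool.eq_iff_iff, okB_iff x.isEdgeList, hb, semiTransitive_iff x.isChordal]
  rw [run, encode_eq, parse_encodePairs]
  simp [h]

theorem encode_length (x : ChordalInput) : x.encode.length ≤ 2 * (x.n + 1) ^ 3 := by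
  have hm : x.edges.length ≤ x.n * x.n := by
    have := x.isEdgeList.1.length_le_card
    simpa [Fintype.card_prod, Fintype.card_fin] using this
  have h1 : (x.edges.flatMap fun e => unary (e.1 : ℕ) ++ unary (e.2 : ℕ)).length ≤
      x.edges.length * (2 * x.n) := by
    rw [List.length_flatMap]
    have : ∀ (l : List (Fin x.n × Fin x.n)), (l.map fun e =>
        (unary (e.1 : ℕ) ++ unary (e.2 : ℕ)).length).sum ≤ l.length * (2 * x.n) := by
      intro l
      induction l with
      | nil => simp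
      | cons e l ih =>
        have h1 := e.1.2
        have h2 := e.2.2
        have h3 : (unary (e.1 : ℕ) ++ unary (e.2 : ℕ)).length = (e.1 : ℕ) + 1 + (e.2 + 1) := by
          simp [unary]; omega
        rw [List.map_cons, List.sum_cons, List.length_cons, h3, Nat.add_mul]
        omega
    exact this _
  have h2 : x.encode.length = (x.n + 1) + (x.edges.length + 1) +
      (x.edges.flatMap fun e => unary (e.1 : ℕ) ++ unary (e.2 : ℕ)).length := by
    rw [ChordalInput.encode, List.length_append, List.length_append]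
    simp only [unary, List.length_append, List.length_replicate, List.length_cons,
      List.length_nil]
  rw [h2]
  have h3 : x.edges.length * (2 * x.n) ≤ x.n * x.n * (2 * x.n) := Nat.mul_le_mul_right _ hm
  nlinarith

end Pool.Agent.SemiTrans
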