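import Mathlib

/-!
Chordal graphs and semi-transitive orientations (definitions).
-/

namespace Pool.Agent.SemiTrans

variable {V : Type*}

/-- A graph is chordal if every cycle on at least four vertices has a chord: an edge joining
two vertices of the cycle which is not an edge of the cycle. -/
def IsChordal (G : SimpleGraph V) : Prop :=
  ∀ (v : V) (c : G.Walk v v), c.IsCycle → 4 ≤ c.length →
    ∃ x ∈ c.support, ∃ y ∈ c.support, G.Adj x y ∧ s(x, y) ∉ c.edges

/-- `D` is an orientation of `G`: `D a b` (read: arc from `a` to `b`) holds only for edges `ab` of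
`G`, and for every edge `ab` exactly one of `D a b` and `D b a` holds. -/
structure IsOrientation (G : SimpleGraph V) (D : V → V → Prop) : Prop where
  adj_iff : ∀ a b, G.Adj a b ↔ (D a b ∨ D b a)
  asymm : ∀ a b, D a b → ¬ D b a

/-- `v 0 → v 1 → ⋯ → v k` is a directed path (with distinct vertices) of length `k ≥ 3`, there is an
arc `v 0 → v k`, and some arc `v i → v j` with `0 ≤ i < j ≤ k` is missing. -/
def IsShortcut (D : V → V → Prop) (k : ℕ) (v : ℕ → V) : Prop :=
  3 ≤ k ∧ Set.InjOn v (Set.Iic k) ∧ (∀ i < k, D (v i) (v (i + 1))) ∧ D (v 0) (v k) ∧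
    ∃ i j, i < j ∧ j ≤ k ∧ ¬ D (v i) (v j)

/-- An orientation is semi-transitive if it is acyclic and has no shortcut. -/
def IsSemiTransitiveOrientation (G : SimpleGraph V) (D : V → V → Prop) : Prop :=
  IsOrientation G D ∧ (∀ v, ¬ Relation.TransGen D v v) ∧ ∀ k v, ¬ IsShortcut D k v

/-- A graph is semi-transitive if it admits a semi-transitive orientation. -/
def SemiTransitive (G : SimpleGraph V) : Prop :=
  ∃ D : V → V → Prop, IsSemiTransitiveOrientation G D

end Pool.Agent.SemiTrans
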