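import Pool.Agent.SemiTrans.Chordal

namespace Pool.Agent.SemiTrans

variable {V : Type*} {G : SimpleGraph V}

open SimpleGraph

theorem seq_of_reflTransGen {R : V → V → Prop} {a b : V} (h : Relation.ReflTransGen R a b) :
    ∃ n, ∃ g : ℕ → V, g 0 = a ∧ g n = b ∧ ∀ i < n, R (g i) (g (i + 1)) := by
  induction h with
  | refl => exact ⟨0, fun _ => a, rfl, rfl, by simp⟩
  | @tail b c _ hbc ih =>
    obtain ⟨n, g, h0, hn, hg⟩ := ih
    refine ⟨n + 1, fun i => if i ≤ n then g i else c, ?_, ?_, ?_⟩
    · simp [h0]
    · simp
    · intro i hi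
      by_cases h1 : i < n
      · have h2 : i ≤ n := h1.le
        have h3 : i + 1 ≤ n := h1
        simp only [h2, h3, if_true]
        exact hg i h1
      · have h2 : i = n := by omega
        subst h2
        simp only [le_refl, if_true, Nat.not_succ_le_self, if_false]
        rw [hn]; exact hbc

/-- The neighbours of `v` attached to a connected set of non-neighbours are pairwise adjacent. -/
theorem IsChordal.adj_of_attached (hG : IsChordal G) {W : V → Prop} {v x y : V}
    (hW : ∀ z, W z → z ≠ v ∧ ¬ G.Adj v z) (hvx : G.Adj v x) (hvy : G.Adj v y) (hxy : x ≠ y)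
    {n : ℕ} (g : ℕ → V) (h0 : G.Adj x (g 0)) (hn : G.Adj (g n) y)
    (hWg : ∀ i ≤ n, W (g i)) (hg : ∀ i < n, G.Adj (g i) (g (i + 1))) : G.Adj x y := by
  classical
  by_contra hcon
  let P : ℕ → Prop := fun l => ∃ g : ℕ → V, g 0 = x ∧ g l = y ∧ (∀ i, 0 < i → i < l → W (g i)) ∧
    ∀ i < l, G.Adj (g i) (g (i + 1))
  have hP : ∃ l, P l := by
    refine ⟨n + 2, fun i => if i = 0 then x else if i ≤ n + 1 then g (i - 1) else y, ?_, ?_, ?_, ?_⟩
    · simp
    · simp
    · intro i hi hi2
      have h1 : i ≠ 0 := by omega
      have h2 : i ≤ n + 1 := by omega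
      simp only [h1, h2, if_true, if_false]
      exact hWg _ (by omega)
    · intro i hi
      rcases Nat.eq_zero_or_pos i with rfl | hpos
      · simp [h0]
      · have h1 : i ≠ 0 := by omega
        have h2 : i ≤ n + 1 := by omega
        have h3 : i + 1 ≠ 0 := by omega
        simp only [h1, h2, h3, if_true, if_false]
        by_cases h4 : i + 1 ≤ n + 1
        · simp only [h4, if_true]
          have := hg (i - 1) (by omega)
          rwa [show i - 1 + 1 = i + 1 - 1 by omega] at this
        · simp only [h4, if_false]
          have : i - 1 = n := by omega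
          rw [this]; exact hn
  set l := Nat.find hP with hl
  obtain ⟨f, f0, fl, fW, fadj⟩ : P l := Nat.find_spec hP
  have hmin : ∀ m < l, ¬ P m := fun m hm => Nat.find_min hP hm
  have hl2 : 2 ≤ l := by
    by_contra hlt
    rcases Nat.lt_or_ge l 1 with h | h
    · have : l = 0 := by omega
      rw [this] at fl
      exact hxy (f0.symm.trans fl)
    · have : l = 1 := by omega
      rw [this] at fl
      have := fadj 0 (by omega)
      rw [f0] at this
      rw [show (0 : ℕ) + 1 = 1 from rfl, fl] at this
      exact hcon this
  -- no repetitions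
  have hne : ∀ i j, i < j → j ≤ l → f i ≠ f j := by
    intro i j hij hjl heq
    rcases Nat.lt_or_ge (j - i) l with hlt | hge
    · apply hmin (l - (j - i)) (by omega)
      refine ⟨fun t => if t ≤ i then f t else f (t + (j - i)), ?_, ?_, ?_, ?_⟩
      · simp [f0]
      · by_cases h1 : l - (j - i) ≤ i
        · simp only [h1, if_true]
          have h2 : l - (j - i) = i := by omega
          have h3 : j = l := by omega
          rw [h2, heq, h3, fl]
        · simp only [h1, if_false]
          rw [show l - (j - i) + (j - i) = l by omega, fl]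
      · intro t ht htl
        by_cases h1 : t ≤ i
        · simp only [h1, if_true]; exact fW t ht (by omega)
        · simp only [h1, if_false]; exact fW _ (by omega) (by omega)
      · intro t ht
        by_cases h1 : t + 1 ≤ i
        · have h2 : t ≤ i := by omega
          simp only [h1, h2, if_true]; exact fadj t (by omega)
        · by_cases h2 : t ≤ i
          · have h3 : t = i := by omega
            subst h3
            simp only [le_refl, if_true, h1, if_false]
            rw [heq]
            have := fadj j (by omega)
            rwa [show t + 1 + (j - t) = j + 1 by omega]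
          · simp only [h1, h2, if_false]
            have := fadj (t + (j - i)) (by omega)
            rwa [show t + 1 + (j - i) = t + (j - i) + 1 by omega]
    · have h1 : i = 0 := by omega
      have h2 : j = l := by omega
      subst h1; subst h2
      rw [f0, fl] at heq
      exact hxy heq
  have hnadj : ∀ i j, i + 2 ≤ j → j ≤ l → ¬ G.Adj (f i) (f j) := by
    intro i j hij hjl hadj
    rcases Nat.lt_or_ge (j - i) l with hlt | hge
    · apply hmin (l - (j - i - 1)) (by omega)
      refine ⟨fun t => if t ≤ i then f t else f (t + (j - i - 1)), ?_, ?_, ?_, ?_⟩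
      · simp [f0]
      · have h1 : ¬ l - (j - i - 1) ≤ i := by omega
        simp only [h1, if_false]
        rw [show l - (j - i - 1) + (j - i - 1) = l by omega, fl]
      · intro t ht htl
        by_cases h1 : t ≤ i
        · simp only [h1, if_true]; exact fW t ht (by omega)
        · simp only [h1, if_false]; exact fW _ (by omega) (by omega)
      · intro t ht
        by_cases h1 : t + 1 ≤ i
        · have h2 : t ≤ i := by omega
          simp only [h1, h2, if_true]; exact fadj t (by omega)
        · by_cases h2 : t ≤ i
          · have h3 : t = i := by omega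
            subst h3
            simp only [le_refl, if_true, h1, if_false]
            rwa [show t + 1 + (j - t - 1) = j by omega]
          · simp only [h1, h2, if_false]
            have := fadj (t + (j - i - 1)) (by omega)
            rwa [show t + 1 + (j - i - 1) = t + (j - i - 1) + 1 by omega]
    · have h1 : i = 0 := by omega
      have h2 : j = l := by omega
      subst h1; subst h2
      rw [f0, fl] at hadj
      exact hcon hadj
  have hfv : ∀ i ≤ l, f i ≠ v := by
    intro i hi
    rcases Nat.eq_zero_or_pos i with rfl | hpos
    · rw [f0]; exact hvx.ne'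
    · rcases Nat.lt_or_ge i l with h | h
      · exact (hW _ (fW i hpos h)).1
      · have : i = l := by omega
        rw [this, fl]; exact hvy.ne'
  -- the cycle
  obtain ⟨i, j, hij, hj, hne0, hadj⟩ := hG.chord (k := l + 1) (by omega)
    (fun t => if t ≤ l then f t else v) (by
      intro a ha b hb hab
      simp only [Set.mem_Iic] at ha hb
      by_cases h1 : a ≤ l
      · by_cases h2 : b ≤ l
        · simp only [h1, h2, if_true] at hab
          rcases lt_trichotomy a b with h | h | h
          · exact absurd hab (hne a b h h2)
          · exact h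
          · exact absurd hab.symm (hne b a h h1)
        · simp only [h1, h2, if_true, if_false] at hab
          exact absurd hab (hfv a h1)
      · by_cases h2 : b ≤ l
        · simp only [h1, h2, if_true, if_false] at hab
          exact absurd hab.symm (hfv b h2)
        · omega) (by
      intro t ht
      have h1 : t ≤ l := by omega
      by_cases h2 : t + 1 ≤ l
      · simp only [h1, h2, if_true]; exact fadj t h2
      · simp only [h1, h2, if_true, if_false]
        have : t = l := by omega
        rw [this, fl]; exact hvy.symm) (by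
      have h1 : ¬ l + 1 ≤ l := by omega
      simp only [h1, if_false, Nat.zero_le, if_true]
      rw [f0]; exact hvx)
  have hil : i ≤ l := by omega
  by_cases hjl : j ≤ l
  · simp only [hil, hjl, if_true] at hadj
    exact hnadj i j hij hjl hadj
  · simp only [hil, hjl, if_true, if_false] at hadj
    have : j = l + 1 := by omega
    have hi0 : 0 < i := by
      rcases Nat.eq_zero_or_pos i with h | h
      · exact absurd ⟨h, this⟩ hne0
      · exact h
    exact (hW _ (fW i hi0 (by omega))).2 hadj.symm

/-- `w` is simplicial in the subgraph induced on `U`. -/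
def SimplicialIn (G : SimpleGraph V) (U : Finset V) (w : V) : Prop :=
  w ∈ U ∧ ∀ a ∈ U, ∀ b ∈ U, a ≠ b → G.Adj w a → G.Adj w b → G.Adj a b

theorem exists_simplicial_aux (hG : IsChordal G) (N : ℕ) : ∀ U : Finset V, U.card ≤ N → ∀ v ∈ U,
    (∃ u ∈ U, u ≠ v ∧ ¬ G.Adj v u) → ∃ w, w ≠ v ∧ ¬ G.Adj v w ∧ SimplicialIn G U w := by
  classical
  induction N with
  | zero =>
    intro U hU v hv
    have : U = ∅ := Finset.card_eq_zero.1 (by omega)
    subst this; simp at hv
  | succ N ih =>
    rintro U hU v hv ⟨u, huU, huv, hvu⟩
    let W : V → Prop := fun z => z ∈ U ∧ z ≠ v ∧ ¬ G.Adj v z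
    let R : V → V → Prop := fun a b => G.Adj a b ∧ W a ∧ W b
    have hRsymm : ∀ a b, Relation.ReflTransGen R a b → Relation.ReflTransGen R b a := by
      intro a b h
      induction h with
      | refl => exact Relation.ReflTransGen.refl
      | tail _ hbc ih => exact Relation.ReflTransGen.head ⟨hbc.1.symm, hbc.2.2, hbc.2.1⟩ ih
    let D : Finset V := U.filter (fun z => Relation.ReflTransGen R u z)
    have hWu : W u := ⟨huU, huv, hvu⟩
    have hDW : ∀ z ∈ D, W z := by
      intro z hz
      rw [Finset.mem_filter] at hz
      rcases Relation.ReflTransGen.cases_tail hz.2 with h | ⟨c, _, hc⟩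
      · rw [h]; exact hWu
      · exact hc.2.2
    let S : Finset V := U.filter (fun s => G.Adj v s ∧ ∃ d ∈ D, G.Adj s d)
    have hDS : ∀ d ∈ D, ∀ y ∈ U, G.Adj d y → y ∈ D ∨ y ∈ S := by
      intro d hd y hy hdy
      by_cases hvy : G.Adj v y
      · right
        rw [Finset.mem_filter]
        exact ⟨hy, hvy, d, hd, hdy.symm⟩
      · left
        have hyv : y ≠ v := by
          rintro rfl
          exact (hDW d hd).2.2 hdy.symm
        rw [Finset.mem_filter] at hd ⊢
        exact ⟨hy, hd.2.tail ⟨hdy, hDW d (Finset.mem_filter.2 hd), hy, hyv, hvy⟩⟩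
    have hSclique : ∀ x ∈ S, ∀ y ∈ S, x ≠ y → G.Adj x y := by
      intro x hx y hy hxy
      rw [Finset.mem_filter] at hx hy
      obtain ⟨_, hvx, d1, hd1, hxd1⟩ := hx
      obtain ⟨_, hvy, d2, hd2, hyd2⟩ := hy
      have h1 : Relation.ReflTransGen R u d1 := (Finset.mem_filter.1 hd1).2
      have h2 : Relation.ReflTransGen R u d2 := (Finset.mem_filter.1 hd2).2
      have h3 : Relation.ReflTransGen R d1 d2 :=
        (hRsymm _ _ h1).trans h2
      obtain ⟨n, g, g0, gn, hg⟩ := seq_of_reflTransGen h3
      refine hG.adj_of_attached (W := W) (fun z hz => hz.2) hvx hvy hxy (n := n) g ?_ ?_ ?_ ?_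
      · rw [g0]; exact hxd1
      · rw [gn]; exact hyd2.symm
      · intro i hi
        rcases Nat.lt_or_ge i n with h | h
        · exact (hg i h).2.1
        · have : i = n := by omega
          rw [this, gn]; exact hDW d2 hd2
      · intro i hi; exact (hg i hi).1
    have huD : u ∈ D := Finset.mem_filter.2 ⟨huU, Relation.ReflTransGen.refl⟩
    have hvD : v ∉ D := fun h => (hDW v h).2.1 rfl
    have hvS : v ∉ S := fun h => (G.loopless.irrefl v) (Finset.mem_filter.1 h).2.1
    -- it is enough to find `w ∈ D` simplicial in `D ∪ S`
    suffices hsuff : ∃ w ∈ D, SimplicialIn G (D ∪ S) w by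
      obtain ⟨w, hwD, hw⟩ := hsuff
      refine ⟨w, (hDW w hwD).2.1, (hDW w hwD).2.2, (hDW w hwD).1, ?_⟩
      intro a ha b hb hab hwa hwb
      refine hw.2 a ?_ b ?_ hab hwa hwb
      · rw [Finset.mem_union]; exact hDS w hwD a ha hwa
      · rw [Finset.mem_union]; exact hDS w hwD b hb hwb
    have hsub : D ∪ S ⊆ U.erase v := by
      intro z hz
      rw [Finset.mem_erase]
      rw [Finset.mem_union] at hz
      rcases hz with h | h
      · exact ⟨fun e => hvD (e ▸ h), (Finset.mem_filter.1 h).1⟩
      · exact ⟨fun e => hvS (e ▸ h), (Finset.mem_filter.1 h).1⟩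
    have hcard : (D ∪ S).card ≤ N := by
      have h1 := Finset.card_le_card hsub
      have h2 := Finset.card_erase_lt_of_mem hv
      omega
    by_cases hcase : ∃ s ∈ S, ∃ d ∈ D, ¬ G.Adj s d
    · obtain ⟨s, hs, d, hd, hsd⟩ := hcase
      have hds : d ≠ s := by
        rintro rfl
        exact (hDW d hd).2.2 (Finset.mem_filter.1 hs).2.1
      obtain ⟨w, hws, hsw, hw⟩ := ih (D ∪ S) hcard s (Finset.mem_union_right _ hs)
        ⟨d, Finset.mem_union_left _ hd, hds, hsd⟩
      have hwD : w ∈ D := by
        rcases Finset.mem_union.1 hw.1 with h | h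
        · exact h
        · exact absurd (hSclique s hs w h (Ne.symm hws)) hsw
      exact ⟨w, hwD, hw⟩
    · push Not at hcase
      -- `S` is complete to `D`
      have hDcard : D.card ≤ N := (Finset.card_le_card Finset.subset_union_left).trans hcard
      obtain ⟨w, hw⟩ : ∃ w, SimplicialIn G D w := by
        by_cases hc : ∃ a ∈ D, ∃ b ∈ D, b ≠ a ∧ ¬ G.Adj a b
        · obtain ⟨a, ha, hb⟩ := hc
          obtain ⟨w, _, _, hw⟩ := ih D hDcard a ha hb
          exact ⟨w, hw⟩
        · push Not at hc
          exact ⟨u, huD, fun a ha b hb hab _ _ => hc a ha b hb (Ne.symm hab)⟩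
      refine ⟨w, hw.1, Finset.mem_union_left _ hw.1, ?_⟩
      intro a ha b hb hab hwa hwb
      rw [Finset.mem_union] at ha hb
      rcases ha with ha | ha <;> rcases hb with hb | hb
      · exact hw.2 a ha b hb hab hwa hwb
      · exact (hcase b hb a ha).symm
      · exact hcase a ha b hb
      · exact hSclique a ha b hb hab

/-- Dirac: a nonempty finite induced subgraph of a chordal graph has a simplicial vertex. -/
theorem exists_simplicial (hG : IsChordal G) (U : Finset V) (hU : U.Nonempty) :
    ∃ w, SimplicialIn G U w := by
  by_cases hc : ∃ a ∈ U, ∃ b ∈ U, b ≠ a ∧ ¬ G.Adj a b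
  · obtain ⟨a, ha, hb⟩ := hc
    obtain ⟨w, _, _, hw⟩ := exists_simplicial_aux hG _ U le_rfl a ha hb
    exact ⟨w, hw⟩
  · push Not at hc
    obtain ⟨u, hu⟩ := hU
    exact ⟨u, hu, fun a ha b hb hab _ _ => hc a ha b hb (Ne.symm hab)⟩

/-- `r` is a perfect elimination rank on `U`: it is injective on `U` and the neighbours in `U`
of smaller rank of any vertex of `U` are pairwise adjacent. -/
def IsRankOn (G : SimpleGraph V) (U : Finset V) (r : V → ℕ) : Prop :=
  Set.InjOn r U ∧ ∀ v ∈ U, ∀ a ∈ U, ∀ b ∈ U, a ≠ b → r a < r v → r b < r v →
    G.Adj v a → G.Adj v b → G.Adj a b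

theorem exists_rankOn (hG : IsChordal G) (U : Finset V) : ∃ r : V → ℕ, IsRankOn G U r := by
  classical
  induction U using Finset.strongInduction with
  | H U ih =>
    rcases U.eq_empty_or_nonempty with rfl | hne
    · exact ⟨fun _ => 0, by simp [IsRankOn]⟩
    · obtain ⟨w, hw⟩ := exists_simplicial hG U hne
      obtain ⟨r, hr⟩ := ih (U.erase w) (Finset.erase_ssubset hw.1)
      set M := (U.sup r) + 1 with hM
      have hlt : ∀ x ∈ U, r x < M := fun x hx => Nat.lt_succ_of_le (Finset.le_sup hx)
      refine ⟨fun x => if x = w then M else r x, ?_, ?_⟩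
      · intro a ha b hb hab
        by_cases h1 : a = w
        · by_cases h2 : b = w
          · rw [h1, h2]
          · simp only [h1, h2, if_true, if_false] at hab
            have := hlt b hb
            omega
        · by_cases h2 : b = w
          · simp only [h1, h2, if_true, if_false] at hab
            have := hlt a ha
            omega
          · simp only [h1, h2, if_false] at hab
            exact hr.1 (Finset.mem_coe.2 (Finset.mem_erase.2 ⟨h1, ha⟩))
              (Finset.mem_coe.2 (Finset.mem_erase.2 ⟨h2, hb⟩)) hab
      · intro v hv a ha b hb hab hav hbv hva hvb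
        have haw : a ≠ w := by
          intro h
          simp only [h, if_true] at hav
          by_cases h1 : v = w
          · simp [h1] at hav
          · simp only [h1, if_false] at hav
            have := hlt v hv
            omega
        have hbw : b ≠ w := by
          intro h
          simp only [h, if_true] at hbv
          by_cases h1 : v = w
          · simp [h1] at hbv
          · simp only [h1, if_false] at hbv
            have := hlt v hv
            omega
        by_cases h1 : v = w
        · subst h1
          exact hw.2 a ha b hb hab hva hvb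
        · simp only [haw, hbw, h1, if_false] at hav hbv
          exact hr.2 v (Finset.mem_erase.2 ⟨h1, hv⟩) a (Finset.mem_erase.2 ⟨haw, ha⟩) b
            (Finset.mem_erase.2 ⟨hbw, hb⟩) hab hav hbv hva hvb

/-- A finite chordal graph has a perfect elimination ordering. -/
theorem exists_rank [Finite V] (hG : IsChordal G) : ∃ r : V → ℕ, Function.Injective r ∧
    ∀ v a b, a ≠ b → r a < r v → r b < r v → G.Adj v a → G.Adj v b → G.Adj a b := by
  classical
  have := Fintype.ofFinite V
  obtain ⟨r, h1, h2⟩ := exists_rankOn hG Finset.univ
  refine ⟨r, fun a b hab => h1 (by simp) (by simp) hab, ?_⟩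
  intro v a b
  exact h2 v (Finset.mem_univ _) a (Finset.mem_univ _) b (Finset.mem_univ _)

end Pool.Agent.SemiTrans
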