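import Pool.Agent.SemiTrans.Core

/-!
For graphs with a perfect elimination ordering, an orientation without directed triangles which
satisfies the diamond condition is semi-transitive.
-/

namespace Pool.Agent.SemiTrans

variable {V : Type*} {G : SimpleGraph V}

open SimpleGraph

/-- Data for an orientation which is good locally. -/
structure LocalGood (G : SimpleGraph V) (D : V → V → Prop) : Prop where
  ori : IsOrientation G D
  tri : ∀ a b c, D a b → D b c → ¬ D c a
  dia : ∀ p q r s, D p r → D r q → G.Adj p q → G.Adj p s → G.Adj q s → r ≠ s → ¬ G.Adj r s →
    D p s ∧ D s q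

section

variable {D : V → V → Prop} (r : V → ℕ) (hinj : Function.Injective r)
  (hr : ∀ v a b, a ≠ b → r a < r v → r b < r v → G.Adj v a → G.Adj v b → G.Adj a b)

include hinj hr

theorem LocalGood.no_closed (h : LocalGood G D) (n : ℕ) : 1 ≤ n → ∀ g : ℕ → V,
    (∀ i < n, D (g i) (g (i + 1))) → g n = g 0 → False := by
  induction n using Nat.strong_induction_on with
  | _ n ih =>
    intro hn g hg hclosed
    have hadj : ∀ a b, D a b → G.Adj a b := fun a b hab => (h.ori.adj_iff a b).2 (Or.inl hab)
    obtain ⟨m, hm, hmax⟩ := Finset.exists_max_image (Finset.range n) (fun i => r (g i))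
      ⟨0, Finset.mem_range.2 hn⟩
    rw [Finset.mem_range] at hm
    have hmax' : ∀ i ≤ n, r (g i) ≤ r (g m) := by
      intro i hi
      rcases Nat.lt_or_ge i n with h1 | h1
      · exact hmax i (Finset.mem_range.2 h1)
      · have : i = n := by omega
        rw [this, hclosed]
        exact hmax 0 (Finset.mem_range.2 hn)
    -- rotate
    obtain ⟨f, hf, hfc, hfm, hfl⟩ : ∃ f : ℕ → V, (∀ i < n, D (f i) (f (i + 1))) ∧ f n = f 0 ∧
        (∀ i ≤ n, r (f i) ≤ r (f (n - 1))) ∧ True := by
      have hlast : (fun i => if m + 1 + i ≤ n then g (m + 1 + i) else g (m + 1 + i - n)) (n - 1)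
          = g m := by
        by_cases h1 : m + 1 + (n - 1) ≤ n
        · simp only [h1, if_true]
          have h2 : m = 0 := by omega
          subst h2
          rw [show 0 + 1 + (n - 1) = n by omega, hclosed]
        · simp only [h1, if_false]
          congr 1; omega
      refine ⟨fun i => if m + 1 + i ≤ n then g (m + 1 + i) else g (m + 1 + i - n), ?_, ?_, ?_,
        trivial⟩
      · intro i hi
        by_cases h1 : m + 1 + (i + 1) ≤ n
        · have h2 : m + 1 + i ≤ n := by omega
          simp only [h1, h2, if_true]
          have := hg (m + 1 + i) (by omega)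
          rwa [show m + 1 + i + 1 = m + 1 + (i + 1) by omega] at this
        · by_cases h2 : m + 1 + i ≤ n
          · simp only [h1, h2, if_true, if_false]
            have h3 : m + 1 + i = n := by omega
            rw [h3, hclosed, show m + 1 + (i + 1) - n = 0 + 1 by omega]
            exact hg 0 (by omega)
          · simp only [h1, h2, if_false]
            have := hg (m + 1 + i - n) (by omega)
            rwa [show m + 1 + i - n + 1 = m + 1 + (i + 1) - n by omega] at this
      · have h1 : ¬ m + 1 + n ≤ n := by omega
        have h2 : m + 1 + 0 ≤ n := by omega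
        simp only [h1, h2, if_true, if_false]
        congr 1; omega
      · intro i hi
        rw [hlast]
        by_cases h1 : m + 1 + i ≤ n
        · simp only [h1, if_true]; exact hmax' _ h1
        · simp only [h1, if_false]; exact hmax' _ (by omega)
    clear hg hclosed hmax hmax'
    rcases Nat.lt_or_ge n 3 with hlt | hge
    · rcases Nat.lt_or_ge n 2 with hlt2 | hge2
      · have h1 : n = 1 := by omega
        subst h1
        have := hf 0 (by omega)
        rw [show (0 : ℕ) + 1 = 1 from rfl, hfc] at this
        exact h.ori.asymm _ _ this this
      · have h1 : n = 2 := by omega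
        subst h1
        have e1 := hf 0 (by omega)
        have e2 := hf 1 (by omega)
        rw [show (1 : ℕ) + 1 = 2 from rfl, hfc] at e2
        exact h.ori.asymm _ _ e1 e2
    · have e1 : D (f (n - 2)) (f (n - 1)) := by
        have := hf (n - 2) (by omega)
        rwa [show n - 2 + 1 = n - 1 by omega] at this
      have e2 : D (f (n - 1)) (f 0) := by
        have := hf (n - 1) (by omega)
        rwa [show n - 1 + 1 = n by omega, hfc] at this
      have hne : f (n - 2) ≠ f 0 := by
        intro heq
        rw [heq] at e1
        exact h.ori.asymm _ _ e1 e2
      have hlt1 : r (f (n - 2)) < r (f (n - 1)) :=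
        lt_of_le_of_ne (hfm _ (by omega)) (fun e => (hadj _ _ e1).ne (hinj e))
      have hlt2 : r (f 0) < r (f (n - 1)) :=
        lt_of_le_of_ne (hfm _ (by omega)) (fun e => (hadj _ _ e2).ne (hinj e).symm)
      have hA := hr _ _ _ hne hlt1 hlt2 (hadj _ _ e1).symm (hadj _ _ e2)
      have hD : D (f (n - 2)) (f 0) := by
        rcases (h.ori.adj_iff _ _).1 hA with h1 | h1
        · exact h1
        · exact absurd h1 (h.tri _ _ _ e1 e2)
      refine ih (n - 1) (by omega) (by omega) (fun i => if i ≤ n - 2 then f i else f 0) ?_ ?_
      · intro i hi
        by_cases h1 : i + 1 ≤ n - 2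
        · have h2 : i ≤ n - 2 := by omega
          simp only [h1, h2, if_true]
          exact hf i (by omega)
        · have h2 : i ≤ n - 2 := by omega
          simp only [h1, h2, if_true, if_false]
          have h3 : i = n - 2 := by omega
          rw [h3]; exact hD
      · have h1 : ¬ n - 1 ≤ n - 2 := by omega
        simp only [h1, if_false, Nat.zero_le, if_true]

theorem LocalGood.acyclic (h : LocalGood G D) (v : V) : ¬ Relation.TransGen D v v := by
  intro hv
  obtain ⟨b, hb, hbv⟩ := Relation.TransGen.head'_iff.1 hv
  obtain ⟨n, g, h0, hn, hg⟩ := seq_of_reflTransGen hbv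
  refine h.no_closed r hinj hr (n + 1) (by omega) (fun i => if i = 0 then v else g (i - 1)) ?_ ?_
  · intro i hi
    rcases Nat.eq_zero_or_pos i with rfl | hpos
    · simp [h0, hb]
    · have h1 : i ≠ 0 := by omega
      have h2 : i + 1 ≠ 0 := by omega
      simp only [h1, h2, if_false]
      have := hg (i - 1) (by omega)
      rwa [show i - 1 + 1 = i + 1 - 1 by omega] at this
  · simp [hn]

omit hinj hr in
theorem LocalGood.T3 (h : LocalGood G D) {a b c d : V} (hab : D a b) (hbc : D b c) (hcd : D c d)
    (had : D a d) (hbd : D b d) : D a c := by
  have hadj : ∀ a b, D a b → G.Adj a b := fun a b hab => (h.ori.adj_iff a b).2 (Or.inl hab)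
  have hca : c ≠ a := by
    rintro rfl
    exact h.ori.asymm _ _ hab hbc
  by_cases hac : G.Adj a c
  · rcases (h.ori.adj_iff _ _).1 hac with h1 | h1
    · exact h1
    · exact absurd h1 (h.tri _ _ _ hab hbc)
  · have := h.dia b d c a hbc hcd (hadj _ _ hbd) (hadj _ _ hab).symm (hadj _ _ had).symm hca
      (fun e => hac e.symm)
    exact absurd this.1 (h.ori.asymm _ _ hab)

omit hinj hr in
theorem LocalGood.T3' (h : LocalGood G D) {a b c d : V} (hab : D a b) (hbc : D b c) (hcd : D c d)
    (had : D a d) (hac : D a c) : D b d := by
  have hadj : ∀ a b, D a b → G.Adj a b := fun a b hab => (h.ori.adj_iff a b).2 (Or.inl hab)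
  have hbd' : b ≠ d := by
    rintro rfl
    exact h.ori.asymm _ _ hbc hcd
  by_cases hbd : G.Adj b d
  · rcases (h.ori.adj_iff _ _).1 hbd with h1 | h1
    · exact h1
    · exact absurd h1 (h.tri _ _ _ hbc hcd)
  · have := h.dia a c b d hab hbc (hadj _ _ hac) (hadj _ _ had) (hadj _ _ hcd) hbd' hbd
    exact absurd this.2 (h.ori.asymm _ _ hcd)

theorem LocalGood.no_shortcut_aux (h : LocalGood G D) (k : ℕ) : 1 ≤ k → ∀ g : ℕ → V,
    (∀ i < k, D (g i) (g (i + 1))) → D (g 0) (g k) → ∀ i j, i < j → j ≤ k → D (g i) (g j) := by
  induction k using Nat.strong_induction_on with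
  | _ k ih =>
    intro hk g hg h0k i j hij hjk
    have hadj : ∀ a b, D a b → G.Adj a b := fun a b hab => (h.ori.adj_iff a b).2 (Or.inl hab)
    -- closed walks do not exist
    have hclosed : ∀ a b, a < b → b ≤ k → ¬ D (g b) (g a) := by
      intro a b hab hbk hD
      refine h.no_closed r hinj hr (b - a + 1) (by omega)
        (fun t => if t ≤ b - a then g (a + t) else g a) ?_ ?_
      · intro t ht
        by_cases h1 : t + 1 ≤ b - a
        · have h2 : t ≤ b - a := by omega
          simp only [h1, h2, if_true]
          have := hg (a + t) (by omega)
          rwa [show a + t + 1 = a + (t + 1) by omega] at this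
        · have h2 : t ≤ b - a := by omega
          simp only [h1, h2, if_true, if_false]
          rw [show a + t = b by omega]; exact hD
      · have h1 : ¬ b - a + 1 ≤ b - a := by omega
        simp only [h1, if_false, Nat.zero_le, if_true, Nat.add_zero]
    have hne : ∀ a b, a < b → b ≤ k → g a ≠ g b := by
      intro a b hab hbk heq
      refine h.no_closed r hinj hr (b - a) (by omega) (fun t => g (a + t)) ?_ ?_
      · intro t ht
        have := hg (a + t) (by omega)
        rwa [show a + t + 1 = a + (t + 1) by omega] at this
      · simp only [Nat.add_zero]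
        rw [show a + (b - a) = b by omega]; exact heq.symm
    rcases Nat.lt_or_ge k 3 with hk3 | hk3
    · -- small cases
      by_cases h1 : j = i + 1
      · rw [h1]; exact hg i (by omega)
      · have h2 : i = 0 := by omega
        have h3 : j = k := by omega
        rw [h2, h3]; exact h0k
    · obtain ⟨m, hm, hmax⟩ := Finset.exists_max_image (Finset.range (k + 1)) (fun i => r (g i))
        ⟨0, Finset.mem_range.2 (by omega)⟩
      rw [Finset.mem_range] at hm
      have hlt : ∀ a ≤ k, a ≠ m → r (g a) < r (g m) := by
        intro a ha ham
        refine lt_of_le_of_ne (hmax a (Finset.mem_range.2 (by omega))) ?_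
        intro e
        have e' := hinj e
        rcases lt_or_gt_of_ne ham with h1 | h1
        · exact hne a m h1 (by omega) e'
        · exact hne m a h1 ha e'.symm
      rcases Nat.eq_zero_or_pos m with hm0 | hmpos
      · subst hm0
        have hA : G.Adj (g 1) (g k) := hr (g 0) (g 1) (g k) (hne 1 k (by omega) le_rfl)
          (hlt 1 (by omega) (by omega)) (hlt k le_rfl (by omega)) (hadj _ _ (hg 0 (by omega)))
          (hadj _ _ h0k)
        have hD : D (g 1) (g k) := by
          rcases (h.ori.adj_iff _ _).1 hA with h1 | h1
          · exact h1
          · exact absurd h1 (hclosed 1 k (by omega) le_rfl)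
        have hsub := ih (k - 1) (by omega) (by omega) (fun t => g (t + 1))
          (fun t ht => hg (t + 1) (by omega)) (by
            simp only [Nat.zero_add]
            rwa [show k - 1 + 1 = k by omega])
        have hall : ∀ a b, 1 ≤ a → a < b → b ≤ k → D (g a) (g b) := by
          intro a b ha hab hb
          have := hsub (a - 1) (b - 1) (by omega) (by omega)
          rwa [show a - 1 + 1 = a by omega, show b - 1 + 1 = b by omega] at this
        rcases Nat.eq_zero_or_pos i with hi0 | hipos
        · subst hi0
          by_cases h1 : j = 1
          · rw [h1]; exact hg 0 (by omega)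
          · by_cases h2 : j = k
            · rw [h2]; exact h0k
            · exact h.T3 (hg 0 (by omega)) (hall 1 j le_rfl (by omega) hjk)
                (hall j k (by omega) (by omega) le_rfl) h0k hD
        · exact hall i j hipos hij hjk
      · rcases Nat.lt_or_ge m k with hmk | hmk
        · have e1 : D (g (m - 1)) (g m) := by
            have := hg (m - 1) (by omega)
            rwa [show m - 1 + 1 = m by omega] at this
          have e2 : D (g m) (g (m + 1)) := hg m (by omega)
          have hA : G.Adj (g (m - 1)) (g (m + 1)) := hr (g m) _ _
            (hne (m - 1) (m + 1) (by omega) (by omega)) (hlt _ (by omega) (by omega))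
            (hlt _ (by omega) (by omega)) (hadj _ _ e1).symm (hadj _ _ e2)
          have hD : D (g (m - 1)) (g (m + 1)) := by
            rcases (h.ori.adj_iff _ _).1 hA with h1 | h1
            · exact h1
            · exact absurd h1 (h.tri _ _ _ e1 e2)
          have hsub := ih (k - 1) (by omega) (by omega) (fun t => if t < m then g t else g (t + 1))
            (by
              intro t ht
              by_cases h1 : t + 1 < m
              · have h2 : t < m := by omega
                simp only [h1, h2, if_true]; exact hg t (by omega)
              · by_cases h2 : t < m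
                · simp only [h1, h2, if_true, if_false]
                  rw [show t = m - 1 by omega, show m - 1 + 1 + 1 = m + 1 by omega]
                  exact hD
                · simp only [h1, h2, if_false]; exact hg (t + 1) (by omega))
            (by
              have h1 : ¬ k - 1 < m := by omega
              simp only [hmpos, h1, if_true, if_false]
              rwa [show k - 1 + 1 = k by omega])
          have hall : ∀ a b, a ≠ m → b ≠ m → a < b → b ≤ k → D (g a) (g b) := by
            intro a b ha hb hab hbk
            have := hsub (if a < m then a else a - 1) (if b < m then b else b - 1)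
              (by split_ifs <;> omega) (by split_ifs <;> omega)
            by_cases h1 : a < m
            · by_cases h2 : b < m
              · simpa only [h1, h2, if_true] using this
              · have h3 : ¬ b - 1 < m := by omega
                simp only [h1, h2, h3, if_true, if_false] at this
                rwa [show b - 1 + 1 = b by omega] at this
            · have h2 : ¬ b < m := by omega
              have h3 : ¬ b - 1 < m := by omega
              have h4 : ¬ a - 1 < m := by omega
              simp only [h1, h2, h3, h4, if_false] at this
              rwa [show b - 1 + 1 = b by omega, show a - 1 + 1 = a by omega] at this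
          by_cases him : i = m
          · subst him
            by_cases h1 : j = i + 1
            · rw [h1]; exact e2
            · exact h.T3' e1 e2 (hall (i + 1) j (by omega) (by omega) (by omega) hjk)
                (hall (i - 1) j (by omega) (by omega) (by omega) hjk) hD
          · by_cases hjm : j = m
            · subst hjm
              by_cases h1 : i = j - 1
              · rw [h1]; exact e1
              · exact h.T3 (hall i (j - 1) (by omega) (by omega) (by omega) (by omega)) e1 e2
                  (hall i (j + 1) (by omega) (by omega) (by omega) (by omega)) hD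
            · exact hall i j him hjm hij hjk
        · have hmk' : m = k := by omega
          subst hmk'
          have e1 : D (g (m - 1)) (g m) := by
            have := hg (m - 1) (by omega)
            rwa [show m - 1 + 1 = m by omega] at this
          have hA : G.Adj (g 0) (g (m - 1)) := hr (g m) _ _
            (hne 0 (m - 1) (by omega) (by omega)) (hlt _ (by omega) (by omega))
            (hlt _ (by omega) (by omega)) (hadj _ _ h0k).symm (hadj _ _ e1).symm
          have hD : D (g 0) (g (m - 1)) := by
            rcases (h.ori.adj_iff _ _).1 hA with h1 | h1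
            · exact h1
            · exact absurd h1 (hclosed 0 (m - 1) (by omega) (by omega))
          have hall := ih (m - 1) (by omega) (by omega) g (fun t ht => hg t (by omega)) hD
          by_cases hjm : j = m
          · subst hjm
            by_cases h1 : i = j - 1
            · rw [h1]; exact e1
            · by_cases h2 : i = 0
              · rw [h2]; exact h0k
              · exact h.T3' (hall 0 i (by omega) (by omega)) (hall i (j - 1) (by omega) le_rfl) e1
                  h0k hD
          · exact hall i j hij (by omega)

theorem LocalGood.semiTransitive (h : LocalGood G D) : IsSemiTransitiveOrientation G D := by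
  refine ⟨h.ori, h.acyclic r hinj hr, ?_⟩
  rintro k v ⟨hk, _, hv, h0k, i, j, hij, hjk, hnot⟩
  exact hnot (h.no_shortcut_aux r hinj hr k (by omega) v hv h0k i j hij hjk)

end

/-- A semi-transitive orientation is locally good. -/
theorem IsSemiTransitiveOrientation.localGood {D : V → V → Prop}
    (h : IsSemiTransitiveOrientation G D) : LocalGood G D := by
  obtain ⟨hori, hac, hsc⟩ := h
  have hadj : ∀ a b, D a b → G.Adj a b := fun a b hab => (hori.adj_iff a b).2 (Or.inl hab)
  have htri : ∀ a b c, D a b → D b c → ¬ D c a := by
    intro a b c hab hbc hca
    exact hac a (((Relation.TransGen.single hab).tail hbc).tail hca)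
  have htri' : ∀ a b c, D a b → D b c → G.Adj a c → D a c := by
    intro a b c hab hbc hacd
    rcases (hori.adj_iff _ _).1 hacd with h1 | h1
    · exact h1
    · exact absurd h1 (htri _ _ _ hab hbc)
  -- no shortcut on four vertices
  have hfour : ∀ a b c d, D a b → D b c → D c d → D a d → (G.Adj a c ∧ G.Adj b d) := by
    intro a b c d hab hbc hcd had
    by_contra hcon
    have hac' : a ≠ c := by rintro rfl; exact hori.asymm _ _ hab hbc
    have hbd' : b ≠ d := by rintro rfl; exact hori.asymm _ _ hbc hcd
    have hab' := (hadj _ _ hab).ne
    have hbc' := (hadj _ _ hbc).ne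
    have hcd' := (hadj _ _ hcd).ne
    have had' := (hadj _ _ had).ne
    let f : ℕ → V := fun i => if i = 0 then a else if i = 1 then b else if i = 2 then c else d
    refine hsc 3 f ⟨le_rfl, ?_, ?_, ?_, ?_⟩
    · intro x hx y hy hxy
      simp only [Set.mem_Iic] at hx hy
      interval_cases x <;> interval_cases y <;> simp_all [f]
    · intro i hi
      interval_cases i
      · simpa [f] using hab
      · simpa [f] using hbc
      · simpa [f] using hcd
    · simpa [f] using had
    · by_cases h1 : G.Adj a c
      · have h2 : ¬ G.Adj b d := fun h2 => hcon ⟨h1, h2⟩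
        refine ⟨1, 3, by omega, by omega, ?_⟩
        intro h3
        exact h2 (hadj _ _ (by simpa [f] using h3))
      · refine ⟨0, 2, by omega, by omega, ?_⟩
        intro h3
        exact h1 (hadj _ _ (by simpa [f] using h3))
  refine ⟨hori, htri, ?_⟩
  intro p q r s hpr hrq hpq hps hqs hrs hnrs
  have hDpq : D p q := htri' _ _ _ hpr hrq hpq
  rcases (hori.adj_iff _ _).1 hps with h1 | h1
  · rcases (hori.adj_iff _ _).1 hqs with h2 | h2
    · exact absurd (hfour p r q s hpr hrq h2 h1).2 hnrs
    · exact ⟨h1, h2⟩
  · have h3 : D s q := htri' s p q h1 hDpq hqs.symm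
    exact absurd (hfour s p r q h1 hpr hrq h3).1 (fun e => hnrs e.symm)

end Pool.Agent.SemiTrans
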